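import Mathlib

set_option autoImplicit false
set_option linter.unusedSectionVars false

/-!
Sequential random placement with martingale weights: the basic estimates for one step.
-/

namespace Pool.Agent.H37.Mart

open Finset

variable {U : Type*} [Fintype U]

open scoped Classical in
/-- adjacency indicator -/
noncomputable def ad (T : SimpleGraph U) (i u : U) : ℝ := if T.Adj i u then 1 else 0

lemma ad_nonneg (T : SimpleGraph U) (i u : U) : 0 ≤ ad T i u := by
  classical
  unfold ad; split_ifs <;> norm_num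

lemma ad_cases (T : SimpleGraph U) (i u : U) :
    (T.Adj i u ∧ ad T i u = 1) ∨ (¬ T.Adj i u ∧ ad T i u = 0) := by
  classical
  unfold ad
  by_cases h : T.Adj i u
  · left; exact ⟨h, by simp [h]⟩
  · right; exact ⟨h, by simp [h]⟩

lemma ad_le_one (T : SimpleGraph U) (i u : U) : ad T i u ≤ 1 := by
  rcases ad_cases T i u with ⟨_, h⟩ | ⟨_, h⟩
  · rw [h]
  · rw [h]; norm_num

lemma ad_comm (T : SimpleGraph U) (i u : U) : ad T i u = ad T u i := by
  classical
  unfold ad
  simp only [T.adj_comm]

/-- hazard of `u` when placing with distribution `p` -/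
noncomputable def haz (T : SimpleGraph U) (p : U → ℝ) (u : U) : ℝ := ∑ i, p i * ad T i u

open scoped Classical in
/-- update factor -/
noncomputable def fac (T : SimpleGraph U) (p : U → ℝ) (c : Prop) (i u : U) : ℝ :=
  if c then (1 - ad T i u) / (1 - haz T p u) else 1

/-- zero-one indicator of a proposition -/
noncomputable def pr (c : Prop) : ℝ := open scoped Classical in if c then 1 else 0

lemma pr_nonneg (c : Prop) : 0 ≤ pr c := by
  unfold pr; split_ifs <;> norm_num

lemma pr_le_one (c : Prop) : pr c ≤ 1 := by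
  unfold pr; split_ifs <;> norm_num

lemma pr_of {c : Prop} (h : c) : pr c = 1 := by unfold pr; rw [if_pos h]

lemma pr_not {c : Prop} (h : ¬ c) : pr c = 0 := by unfold pr; rw [if_neg h]

lemma fac_of (T : SimpleGraph U) (p : U → ℝ) {c : Prop} (h : c) (i u : U) :
    fac T p c i u = (1 - ad T i u) / (1 - haz T p u) := by
  unfold fac; rw [if_pos h]

lemma fac_not (T : SimpleGraph U) (p : U → ℝ) {c : Prop} (h : ¬ c) (i u : U) :
    fac T p c i u = 1 := by
  unfold fac; rw [if_neg h]

section

variable {T : SimpleGraph U} {p : U → ℝ}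

lemma haz_nonneg (hp0 : ∀ i, 0 ≤ p i) (u : U) : 0 ≤ haz T p u :=
  Finset.sum_nonneg (fun i _ => mul_nonneg (hp0 i) (ad_nonneg T i u))

lemma fac_nonneg {u : U} (hu : haz T p u ≤ 1 / 2) (c : Prop) (i : U) : 0 ≤ fac T p c i u := by
  by_cases h : c
  · rw [fac_of T p h]
    apply div_nonneg
    · have := ad_le_one T i u; linarith
    · linarith
  · rw [fac_not T p h]; norm_num

lemma fac_le_two {u : U} (hu : haz T p u ≤ 1 / 2) (c : Prop) (i : U) : fac T p c i u ≤ 2 := by
  by_cases h : c
  · rw [fac_of T p h, div_le_iff₀ (by linarith)]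
    have := ad_nonneg T i u; linarith
  · rw [fac_not T p h]; norm_num

lemma abs_fac_sub_one {u : U} (hp0 : ∀ i, 0 ≤ p i) (hu : haz T p u ≤ 1 / 2) (c : Prop) (i : U) :
    |fac T p c i u - 1| ≤ pr c * (ad T i u + 2 * haz T p u) := by
  have h0 := haz_nonneg (T := T) hp0 u
  by_cases h : c
  · rw [fac_of T p h, pr_of h, one_mul]
    have hpos : 0 < 1 - haz T p u := by linarith
    rcases ad_cases T i u with ⟨_, ha⟩ | ⟨_, ha⟩
    · rw [ha]; simp; linarith
    · rw [ha]
      have h1 : (1 - 0) / (1 - haz T p u) - 1 = haz T p u / (1 - haz T p u) := by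
        field_simp; ring
      rw [h1, abs_of_nonneg (by positivity), div_le_iff₀ hpos]
      nlinarith
  · rw [fac_not T p h, pr_not h]; simp

lemma sum_fac {u : U} (hp1 : ∑ i, p i = 1) (hu : haz T p u ≤ 1 / 2) (c : Prop) :
    ∑ i, p i * fac T p c i u = 1 := by
  by_cases h : c
  · have h1 : ∀ i, p i * fac T p c i u = (p i - p i * ad T i u) / (1 - haz T p u) := by
      intro i; rw [fac_of T p h]; ring
    rw [Finset.sum_congr rfl (fun i _ => h1 i), ← Finset.sum_div, Finset.sum_sub_distrib, hp1]
    have : (∑ i, p i * ad T i u) = haz T p u := rfl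
    rw [this]
    exact div_self (by linarith)
  · have h1 : ∀ i, p i * fac T p c i u = p i := by
      intro i; rw [fac_not T p h]; ring
    rw [Finset.sum_congr rfl (fun i _ => h1 i), hp1]

/-- adjacent vertices have disjoint neighbourhoods -/
lemma sum_fac_fac (hT : ∀ u a b, T.Adj u a → T.Adj u b → ¬ T.Adj a b) {u v : U}
    (huv : T.Adj u v) (hp0 : ∀ i, 0 ≤ p i)
    (hp1 : ∑ i, p i = 1) (hu : haz T p u ≤ 1 / 2) (hv : haz T p v ≤ 1 / 2) (c c' : Prop) :
    ∑ i, p i * (fac T p c i u * fac T p c' i v) ≤ 1 := by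
  by_cases h : c
  · by_cases h' : c'
    · have hprod : ∀ i, ad T i u * ad T i v = 0 := by
        intro i
        rcases ad_cases T i u with ⟨h1, ha⟩ | ⟨_, ha⟩
        · rcases ad_cases T i v with ⟨h2, hb⟩ | ⟨_, hb⟩
          · exact absurd huv (hT i u v h1 h2)
          · rw [hb, mul_zero]
        · rw [ha, zero_mul]
      have h1 : ∀ i, p i * (fac T p c i u * fac T p c' i v) =
          (p i - p i * ad T i u - p i * ad T i v) / ((1 - haz T p u) * (1 - haz T p v)) := by
        intro i
        rw [fac_of T p h, fac_of T p h', div_mul_div_comm, mul_div_assoc']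
        congr 1
        have := hprod i
        calc p i * ((1 - ad T i u) * (1 - ad T i v))
            = p i - p i * ad T i u - p i * ad T i v + p i * (ad T i u * ad T i v) := by ring
          _ = _ := by rw [this]; ring
      rw [Finset.sum_congr rfl (fun i _ => h1 i), ← Finset.sum_div, Finset.sum_sub_distrib,
        Finset.sum_sub_distrib, hp1]
      have e1 : (∑ i, p i * ad T i u) = haz T p u := rfl
      have e2 : (∑ i, p i * ad T i v) = haz T p v := rfl
      rw [e1, e2]
      have g1 := haz_nonneg (T := T) hp0 u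
      have g2 := haz_nonneg (T := T) hp0 v
      rw [div_le_one (by apply mul_pos <;> linarith)]
      nlinarith [mul_nonneg g1 g2]
    · have h1 : ∀ i, p i * (fac T p c i u * fac T p c' i v) = p i * fac T p c i u := by
        intro i; rw [fac_not T p h']; ring
      rw [Finset.sum_congr rfl (fun i _ => h1 i), sum_fac hp1 hu]
  · have h1 : ∀ i, p i * (fac T p c i u * fac T p c' i v) = p i * fac T p c' i v := by
      intro i; rw [fac_not T p h]; ring
    rw [Finset.sum_congr rfl (fun i _ => h1 i), sum_fac hp1 hv]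

/-- comparison kernel -/
noncomputable def kk (T : SimpleGraph U) (p : U → ℝ) (c : Prop) (i u : U) : ℝ :=
  pr c * (2 * (ad T i u + 2 * haz T p u))

lemma kk_nonneg (hp0 : ∀ i, 0 ≤ p i) (c : Prop) (i u : U) : 0 ≤ kk T p c i u := by
  unfold kk
  have := ad_nonneg T i u
  have := haz_nonneg (T := T) hp0 u
  have := pr_nonneg c
  positivity

lemma abs_fac_mul_sub_one {u v : U} (hp0 : ∀ i, 0 ≤ p i)
    (hu : haz T p u ≤ 1 / 2) (hv : haz T p v ≤ 1 / 2) (c c' : Prop) (i : U) :
    |fac T p c i u * fac T p c' i v - 1| ≤ kk T p c i u + kk T p c' i v := by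
  have h1 := abs_fac_sub_one hp0 hu c i
  have h2 := abs_fac_sub_one hp0 hv c' i
  have h3 := fac_nonneg hv c' i
  have h4 := fac_le_two hv c' i
  have h5 : fac T p c i u * fac T p c' i v - 1 =
      (fac T p c i u - 1) * fac T p c' i v + (fac T p c' i v - 1) := by ring
  rw [h5]
  have h6 : |(fac T p c i u - 1) * fac T p c' i v| ≤ 2 * (pr c * (ad T i u + 2 * haz T p u)) := by
    rw [abs_mul, abs_of_nonneg h3]
    calc |fac T p c i u - 1| * fac T p c' i v
        ≤ (pr c * (ad T i u + 2 * haz T p u)) * 2 :=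
          mul_le_mul h1 h4 h3 (le_trans (abs_nonneg _) h1)
      _ = _ := by ring
  have h7 : 0 ≤ pr c' * (ad T i v + 2 * haz T p v) := le_trans (abs_nonneg _) h2
  calc |(fac T p c i u - 1) * fac T p c' i v + (fac T p c' i v - 1)|
      ≤ |(fac T p c i u - 1) * fac T p c' i v| + |fac T p c' i v - 1| := abs_add_le _ _
    _ ≤ 2 * (pr c * (ad T i u + 2 * haz T p u)) + pr c' * (ad T i v + 2 * haz T p v) :=
        add_le_add h6 h2
    _ ≤ kk T p c i u + kk T p c' i v := by
        unfold kk
        linarith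

/-- total hazard of a weight -/
lemma sum_haz_le {a : U → ℝ} {A : ℝ} (hp0 : ∀ i, 0 ≤ p i) (hp1 : ∑ i, p i = 1)
    (hA : ∀ i, p i ≠ 0 → ∑ u, a u * ad T i u ≤ A) : ∑ u, a u * haz T p u ≤ A := by
  have h1 : ∑ u, a u * haz T p u = ∑ i, p i * ∑ u, a u * ad T i u := by
    unfold haz
    simp only [Finset.mul_sum]
    rw [Finset.sum_comm]
    apply Finset.sum_congr rfl
    intro i _
    apply Finset.sum_congr rfl
    intro u _
    ring
  rw [h1]
  calc ∑ i, p i * ∑ u, a u * ad T i u ≤ ∑ i, p i * A := by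
        apply Finset.sum_le_sum
        intro i _
        by_cases h : p i = 0
        · rw [h]; simp
        · exact mul_le_mul_of_nonneg_left (hA i h) (hp0 i)
    _ = A := by rw [← Finset.sum_mul, hp1, one_mul]

lemma sum_kk_le {a : U → ℝ} {A : ℝ} (hp0 : ∀ i, 0 ≤ p i) (hp1 : ∑ i, p i = 1)
    (hA : ∀ i, p i ≠ 0 → ∑ u, a u * ad T i u ≤ A) (c : Prop) {i : U} (hi : p i ≠ 0) :
    ∑ u, a u * kk T p c i u ≤ pr c * (6 * A) := by
  have h1 : ∑ u, a u * kk T p c i u =
      pr c * (2 * ∑ u, a u * ad T i u + 4 * ∑ u, a u * haz T p u) := by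
    unfold kk
    rw [Finset.mul_sum, Finset.mul_sum, ← Finset.sum_add_distrib, Finset.mul_sum]
    apply Finset.sum_congr rfl
    intro u _
    ring
  rw [h1]
  apply mul_le_mul_of_nonneg_left _ (pr_nonneg c)
  have h2 := hA i hi
  have h3 := sum_haz_le hp0 hp1 hA
  linarith

end

end Pool.Agent.H37.Mart
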