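import Pool.Agent.H37.Mart.Basic

set_option autoImplicit false
set_option linter.unusedSectionVars false

/-!
Energies and the one-step estimate for one list holder.
-/

namespace Pool.Agent.H37.Mart

open Finset

variable {U : Type*} [Fintype U]

/-- energy of two weights -/
noncomputable def en (T : SimpleGraph U) (a b : U → ℝ) : ℝ := ∑ u, ∑ v, ad T u v * (a u * b v)

variable {T : SimpleGraph U} {p : U → ℝ}

lemma en_nonneg {a b : U → ℝ} (ha : ∀ u, 0 ≤ a u) (hb : ∀ u, 0 ≤ b u) : 0 ≤ en T a b := by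
  unfold en
  exact Finset.sum_nonneg (fun u _ => Finset.sum_nonneg (fun v _ =>
    mul_nonneg (ad_nonneg T u v) (mul_nonneg (ha u) (hb v))))

lemma en_mono {a b a' b' : U → ℝ} (ha : ∀ u, 0 ≤ a u) (hb : ∀ u, 0 ≤ b u)
    (haa : ∀ u, a u ≤ a' u) (hbb : ∀ u, b u ≤ b' u) : en T a b ≤ en T a' b' := by
  unfold en
  apply Finset.sum_le_sum; intro u _
  apply Finset.sum_le_sum; intro v _
  apply mul_le_mul_of_nonneg_left _ (ad_nonneg T u v)
  exact mul_le_mul (haa u) (hbb v) (hb v) (le_trans (ha u) (haa u))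

/-- updated weight -/
noncomputable def up (T : SimpleGraph U) (p : U → ℝ) (c : Prop) (a : U → ℝ) (i u : U) : ℝ :=
  a u * fac T p c i u

/-- the weights live where the hazard is at most one half -/
def Ok (T : SimpleGraph U) (p : U → ℝ) (a : U → ℝ) : Prop :=
  ∀ u, a u = 0 ∨ haz T p u ≤ 1 / 2

lemma up_nonneg {a : U → ℝ} (ha : ∀ u, 0 ≤ a u) (hok : Ok T p a) (c : Prop) (i u : U) :
    0 ≤ up T p c a i u := by
  unfold up
  rcases hok u with h | h
  · rw [h, zero_mul]
  · exact mul_nonneg (ha u) (fac_nonneg h c i)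

lemma sum_up {a : U → ℝ} (hp1 : ∑ i, p i = 1) (hok : Ok T p a) (c : Prop) (u : U) :
    ∑ i, p i * up T p c a i u = a u := by
  unfold up
  rcases hok u with h | h
  · rw [h]; simp
  · have h1 : ∀ i, p i * (a u * fac T p c i u) = a u * (p i * fac T p c i u) := by
      intro i; ring
    rw [Finset.sum_congr rfl (fun i _ => h1 i), ← Finset.mul_sum, sum_fac hp1 h, mul_one]

lemma sum_en_up (hT : ∀ u a b, T.Adj u a → T.Adj u b → ¬ T.Adj a b) {a b : U → ℝ}
    (ha : ∀ u, 0 ≤ a u) (hb : ∀ u, 0 ≤ b u) (hp0 : ∀ i, 0 ≤ p i)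
    (hp1 : ∑ i, p i = 1) (hoka : Ok T p a) (hokb : Ok T p b) (c c' : Prop) :
    ∑ i, p i * en T (up T p c a i) (up T p c' b i) ≤ en T a b := by
  have h1 : ∑ i, p i * en T (up T p c a i) (up T p c' b i) =
      ∑ u, ∑ v, ∑ i, p i * (ad T u v * (up T p c a i u * up T p c' b i v)) := by
    unfold en
    simp only [Finset.mul_sum]
    rw [Finset.sum_comm]
    apply Finset.sum_congr rfl; intro u _
    rw [Finset.sum_comm]
  rw [h1]
  unfold en
  apply Finset.sum_le_sum; intro u _
  apply Finset.sum_le_sum; intro v _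
  rcases ad_cases T u v with ⟨huv, had⟩ | ⟨_, had⟩
  · rcases hoka u with h | hu
    · simp [up, h]
    · rcases hokb v with h | hv
      · simp [up, h]
      · have h2 : ∑ i, p i * (ad T u v * (up T p c a i u * up T p c' b i v)) =
            (a u * b v) * ∑ i, p i * (fac T p c i u * fac T p c' i v) := by
          rw [Finset.mul_sum]
          apply Finset.sum_congr rfl; intro i _
          rw [had]; unfold up; ring
        rw [h2, had, one_mul]
        have h3 := sum_fac_fac hT huv hp0 hp1 hu hv c c'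
        have h4 : 0 ≤ a u * b v := mul_nonneg (ha u) (hb v)
        nlinarith
  · rw [had]; simp

lemma abs_en_diff {a b : U → ℝ}
    (ha : ∀ u, 0 ≤ a u) (hb : ∀ u, 0 ≤ b u) (hp0 : ∀ i, 0 ≤ p i)
    (hp1 : ∑ i, p i = 1) (hoka : Ok T p a) (hokb : Ok T p b) (c c' : Prop) {A : ℝ} (hA0 : 0 ≤ A)
    (hA : ∀ i, p i ≠ 0 → ∑ u, a u * ad T i u ≤ A)
    (hB : ∀ i, p i ≠ 0 → ∑ u, b u * ad T i u ≤ A)
    (hAB : ∀ u, a u ≠ 0 → ∑ v, b v * ad T u v ≤ A)
    (hBA : ∀ v, b v ≠ 0 → ∑ u, a u * ad T v u ≤ A) {i : U} (hi : p i ≠ 0) :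
    |en T (up T p c a i) (up T p c' b i) - en T a b| ≤ (pr c + pr c') * (6 * A ^ 2) := by
  have h1 : en T (up T p c a i) (up T p c' b i) - en T a b =
      ∑ u, ∑ v, ad T u v * (a u * b v) * (fac T p c i u * fac T p c' i v - 1) := by
    unfold en
    rw [← Finset.sum_sub_distrib]
    apply Finset.sum_congr rfl; intro u _
    rw [← Finset.sum_sub_distrib]
    apply Finset.sum_congr rfl; intro v _
    unfold up; ring
  rw [h1]
  have h2 : |∑ u, ∑ v, ad T u v * (a u * b v) * (fac T p c i u * fac T p c' i v - 1)| ≤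
      ∑ u, ∑ v, ad T u v * (a u * b v) * (kk T p c i u + kk T p c' i v) := by
    refine (Finset.abs_sum_le_sum_abs _ _).trans ?_
    apply Finset.sum_le_sum; intro u _
    refine (Finset.abs_sum_le_sum_abs _ _).trans ?_
    apply Finset.sum_le_sum; intro v _
    have hnn : 0 ≤ ad T u v * (a u * b v) := mul_nonneg (ad_nonneg T u v) (mul_nonneg (ha u) (hb v))
    rw [abs_mul, abs_of_nonneg hnn]
    rcases hoka u with h | hu
    · rw [h]; simp
    · rcases hokb v with h | hv
      · rw [h]; simp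
      · exact mul_le_mul_of_nonneg_left (abs_fac_mul_sub_one hp0 hu hv c c' i) hnn
  refine h2.trans ?_
  have h3 : ∑ u, ∑ v, ad T u v * (a u * b v) * (kk T p c i u + kk T p c' i v) =
      ∑ u, a u * kk T p c i u * (∑ v, b v * ad T u v) +
      ∑ v, b v * kk T p c' i v * (∑ u, a u * ad T v u) := by
    have e1 : ∑ v, b v * kk T p c' i v * (∑ u, a u * ad T v u) =
        ∑ u, ∑ v, b v * kk T p c' i v * (a u * ad T v u) := by
      rw [Finset.sum_comm]
      apply Finset.sum_congr rfl; intro v _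
      rw [Finset.mul_sum]
    rw [e1, ← Finset.sum_add_distrib]
    apply Finset.sum_congr rfl; intro u _
    rw [Finset.mul_sum, ← Finset.sum_add_distrib]
    apply Finset.sum_congr rfl; intro v _
    rw [ad_comm T v u]; ring
  rw [h3]
  have h4 : ∑ u, a u * kk T p c i u * (∑ v, b v * ad T u v) ≤ pr c * (6 * A) * A := by
    calc ∑ u, a u * kk T p c i u * (∑ v, b v * ad T u v) ≤ ∑ u, a u * kk T p c i u * A := by
          apply Finset.sum_le_sum; intro u _
          by_cases h : a u = 0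
          · rw [h]; simp
          · exact mul_le_mul_of_nonneg_left (hAB u h) (mul_nonneg (ha u) (kk_nonneg hp0 c i u))
      _ = (∑ u, a u * kk T p c i u) * A := by rw [Finset.sum_mul]
      _ ≤ pr c * (6 * A) * A := mul_le_mul_of_nonneg_right (sum_kk_le hp0 hp1 hA c hi) hA0
  have h5 : ∑ v, b v * kk T p c' i v * (∑ u, a u * ad T v u) ≤ pr c' * (6 * A) * A := by
    calc ∑ v, b v * kk T p c' i v * (∑ u, a u * ad T v u) ≤ ∑ v, b v * kk T p c' i v * A := by
          apply Finset.sum_le_sum; intro v _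
          by_cases h : b v = 0
          · rw [h]; simp
          · exact mul_le_mul_of_nonneg_left (hBA v h) (mul_nonneg (hb v) (kk_nonneg hp0 c' i v))
      _ = (∑ v, b v * kk T p c' i v) * A := by rw [Finset.sum_mul]
      _ ≤ pr c' * (6 * A) * A := mul_le_mul_of_nonneg_right (sum_kk_le hp0 hp1 hB c' hi) hA0
  calc _ ≤ pr c * (6 * A) * A + pr c' * (6 * A) * A := add_le_add h4 h5
    _ = (pr c + pr c') * (6 * A ^ 2) := by ring

/-- positive part squared, one step -/
lemma possq_step {p δ : U → ℝ} {s b : ℝ} (hp0 : ∀ i, 0 ≤ p i) (hp1 : ∑ i, p i = 1)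
    (hmean : ∑ i, p i * δ i ≤ 0) (hb : ∀ i, p i ≠ 0 → |δ i| ≤ b) :
    ∑ i, p i * (max 0 (s + δ i)) ^ 2 ≤ (max 0 s) ^ 2 + b ^ 2 := by
  have h1 : ∀ i, p i * (max 0 (s + δ i)) ^ 2 ≤
      p i * ((max 0 s) ^ 2 + b ^ 2) + 2 * (max 0 s) * (p i * δ i) := by
    intro i
    by_cases h : p i = 0
    · rw [h]; simp
    · have h2 := hb i h
      have h3 : (max 0 (s + δ i)) ^ 2 ≤ (max 0 s) ^ 2 + 2 * (max 0 s) * δ i + δ i ^ 2 := by
        have h4 : (max 0 s) ^ 2 + 2 * (max 0 s) * δ i + δ i ^ 2 = (max 0 s + δ i) ^ 2 := by ring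
        rw [h4]
        by_cases hc : s + δ i ≤ 0
        · rw [max_eq_left hc]
          have : (0 : ℝ) ^ 2 = 0 := by norm_num
          rw [this]
          exact sq_nonneg _
        · push Not at hc
          rw [max_eq_right hc.le]
          have h5 : s ≤ max 0 s := le_max_right _ _
          apply pow_le_pow_left₀ hc.le
          linarith
      have h6 : δ i ^ 2 ≤ b ^ 2 := sq_le_sq' (by linarith [(abs_le.1 h2).1]) (abs_le.1 h2).2
      have h7 := mul_le_mul_of_nonneg_left (h3.trans (by linarith : (max 0 s) ^ 2 +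
        2 * (max 0 s) * δ i + δ i ^ 2 ≤ (max 0 s) ^ 2 + 2 * (max 0 s) * δ i + b ^ 2)) (hp0 i)
      calc p i * (max 0 (s + δ i)) ^ 2 ≤ p i * ((max 0 s) ^ 2 + 2 * (max 0 s) * δ i + b ^ 2) := h7
        _ = _ := by ring
  calc ∑ i, p i * (max 0 (s + δ i)) ^ 2
      ≤ ∑ i, (p i * ((max 0 s) ^ 2 + b ^ 2) + 2 * (max 0 s) * (p i * δ i)) :=
        Finset.sum_le_sum (fun i _ => h1 i)
    _ = ((max 0 s) ^ 2 + b ^ 2) + 2 * (max 0 s) * ∑ i, p i * δ i := by
        rw [Finset.sum_add_distrib, ← Finset.sum_mul, hp1, one_mul, ← Finset.mul_sum]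
    _ ≤ (max 0 s) ^ 2 + b ^ 2 := by
        have h8 : 0 ≤ max 0 s := le_max_left _ _
        nlinarith

/-- square, one step -/
lemma sq_step {p δ : U → ℝ} {s b : ℝ} (hp0 : ∀ i, 0 ≤ p i) (hp1 : ∑ i, p i = 1)
    (hmean : ∑ i, p i * δ i = 0) (hb : ∀ i, p i ≠ 0 → |δ i| ≤ b) :
    ∑ i, p i * (s + δ i) ^ 2 ≤ s ^ 2 + b ^ 2 := by
  have h1 : ∀ i, p i * (s + δ i) ^ 2 ≤ p i * (s ^ 2 + b ^ 2) + 2 * s * (p i * δ i) := by
    intro i
    by_cases h : p i = 0
    · rw [h]; simp
    · have h2 := hb i h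
      have h6 : δ i ^ 2 ≤ b ^ 2 := sq_le_sq' (by linarith [(abs_le.1 h2).1]) (abs_le.1 h2).2
      have h7 := mul_le_mul_of_nonneg_left (by linarith : s ^ 2 + 2 * s * δ i + δ i ^ 2 ≤
        s ^ 2 + 2 * s * δ i + b ^ 2) (hp0 i)
      calc p i * (s + δ i) ^ 2 = p i * (s ^ 2 + 2 * s * δ i + δ i ^ 2) := by ring
        _ ≤ p i * (s ^ 2 + 2 * s * δ i + b ^ 2) := h7
        _ = _ := by ring
  calc ∑ i, p i * (s + δ i) ^ 2
      ≤ ∑ i, (p i * (s ^ 2 + b ^ 2) + 2 * s * (p i * δ i)) :=
        Finset.sum_le_sum (fun i _ => h1 i)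
    _ = (s ^ 2 + b ^ 2) + 2 * s * ∑ i, p i * δ i := by
        rw [Finset.sum_add_distrib, ← Finset.sum_mul, hp1, one_mul, ← Finset.mul_sum]
    _ = s ^ 2 + b ^ 2 := by rw [hmean]; ring

/-- mass step for one holder -/
lemma mass_step {a : U → ℝ} (ha : ∀ u, 0 ≤ a u) (hp0 : ∀ i, 0 ≤ p i)
    (hp1 : ∑ i, p i = 1) (hok : Ok T p a) (c : Prop) {A : ℝ}
    (hA : ∀ i, p i ≠ 0 → ∑ u, a u * ad T i u ≤ A) (s : ℝ) :
    ∑ i, p i * (s + ∑ u, (up T p c a i u - a u)) ^ 2 ≤ s ^ 2 + (pr c * (6 * A)) ^ 2 := by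
  apply sq_step hp0 hp1
  · simp only [Finset.mul_sum, mul_sub]
    rw [Finset.sum_comm]
    apply Finset.sum_eq_zero
    intro u _
    rw [Finset.sum_sub_distrib, sum_up hp1 hok, ← Finset.sum_mul, hp1]
    ring
  · intro i hi
    have h1 : |∑ u, (up T p c a i u - a u)| ≤ ∑ u, a u * kk T p c i u := by
      refine (Finset.abs_sum_le_sum_abs _ _).trans ?_
      apply Finset.sum_le_sum; intro u _
      rcases hok u with h | h
      · simp [up, h]
      · have h2 := abs_fac_sub_one hp0 h c i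
        have h3 : up T p c a i u - a u = a u * (fac T p c i u - 1) := by unfold up; ring
        rw [h3, abs_mul, abs_of_nonneg (ha u)]
        apply mul_le_mul_of_nonneg_left _ (ha u)
        refine h2.trans ?_
        unfold kk
        have h4 := pr_nonneg c
        have h5 := ad_nonneg T i u
        have h6 := haz_nonneg (T := T) hp0 u
        apply mul_le_mul_of_nonneg_left _ h4
        linarith
    exact h1.trans (sum_kk_le hp0 hp1 hA c hi)

/-- exposure step for one holder -/
lemma expo_step (hT : ∀ u a b, T.Adj u a → T.Adj u b → ¬ T.Adj a b) {ι : Type*} (rel : Finset ι)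
    {a y : U → ℝ} {b : ι → U → ℝ} {c : Prop} {cc : ι → Prop}
    (ha : ∀ u, 0 ≤ a u) (hb : ∀ j ∈ rel, ∀ u, 0 ≤ b j u) (hp0 : ∀ i, 0 ≤ p i)
    (hp1 : ∑ i, p i = 1) (hoka : Ok T p a) (hokb : ∀ j ∈ rel, Ok T p (b j))
    {A Yc drop η : ℝ} (hA0 : 0 ≤ A) (hYc : 0 ≤ Yc) (hdrop : 0 ≤ drop) (hη0 : 0 ≤ η) (hη1 : η ≤ 1)
    (hy0 : ∀ u, a u ≠ 0 → 0 ≤ y u) (hy : ∀ u, a u ≠ 0 → y u ≤ Yc)
    (hA : ∀ i, p i ≠ 0 → ∑ u, a u * ad T i u ≤ A)
    (hB : ∀ j ∈ rel, ∀ i, p i ≠ 0 → ∑ u, b j u * ad T i u ≤ A)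
    (hAB : ∀ j ∈ rel, ∀ u, a u ≠ 0 → ∑ v, b j v * ad T u v ≤ A)
    (hBA : ∀ j ∈ rel, ∀ v, b j v ≠ 0 → ∑ u, a u * ad T v u ≤ A)
    (hdr : pr c * (η * ∑ u, a u * haz T p u) ≤ 4 * drop) (s : ℝ) :
    ∑ i, p i * (max 0 (s + (∑ u, (up T p c a i u * (y u + pr c * η * haz T p u) - a u * y u) +
      4 * ∑ j ∈ rel, (en T (up T p c a i) (up T p (cc j) (b j) i) - en T a (b j)) -
        4 * drop))) ^ 2 ≤
      (max 0 s) ^ 2 + (pr c * (6 * A * (1 + Yc)) +
        4 * ∑ j ∈ rel, (pr c + pr (cc j)) * (6 * A ^ 2) + 4 * drop) ^ 2 := by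
  have hprc := pr_nonneg c
  apply possq_step hp0 hp1
  · -- mean
    have e1 : ∑ i, p i * ∑ u, (up T p c a i u * (y u + pr c * η * haz T p u) - a u * y u) =
        pr c * (η * ∑ u, a u * haz T p u) := by
      simp only [Finset.mul_sum]
      rw [Finset.sum_comm]
      apply Finset.sum_congr rfl; intro u _
      have h1 : ∀ i, p i * (up T p c a i u * (y u + pr c * η * haz T p u) - a u * y u) =
          (p i * up T p c a i u) * (y u + pr c * η * haz T p u) - p i * (a u * y u) := by
        intro i; ring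
      rw [Finset.sum_congr rfl (fun i _ => h1 i), Finset.sum_sub_distrib, ← Finset.sum_mul,
        ← Finset.sum_mul, sum_up hp1 hoka, hp1]
      ring
    have e2 : ∑ i, p i * ∑ j ∈ rel, (en T (up T p c a i) (up T p (cc j) (b j) i) - en T a (b j))
        ≤ 0 := by
      simp only [Finset.mul_sum]
      rw [Finset.sum_comm]
      apply Finset.sum_nonpos
      intro j hj
      simp only [mul_sub]
      rw [Finset.sum_sub_distrib, ← Finset.sum_mul, hp1, one_mul]
      have := sum_en_up hT ha (hb j hj) hp0 hp1 hoka (hokb j hj) c (cc j)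
      linarith
    have e3 : ∑ i, p i * (∑ u, (up T p c a i u * (y u + pr c * η * haz T p u) - a u * y u) +
      4 * ∑ j ∈ rel, (en T (up T p c a i) (up T p (cc j) (b j) i) - en T a (b j)) -
        4 * drop) =
      ∑ i, p i * ∑ u, (up T p c a i u * (y u + pr c * η * haz T p u) - a u * y u) +
      4 * ∑ i, p i * ∑ j ∈ rel, (en T (up T p c a i) (up T p (cc j) (b j) i) - en T a (b j)) -
        4 * drop := by
      have h2 : 4 * drop = ∑ i, p i * (4 * drop) := by rw [← Finset.sum_mul, hp1, one_mul]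
      conv_rhs => rw [h2]
      rw [Finset.mul_sum, ← Finset.sum_add_distrib, ← Finset.sum_sub_distrib]
      apply Finset.sum_congr rfl; intro i _
      ring
    rw [e3, e1]
    linarith
  · intro i hi
    have f1 : |∑ u, (up T p c a i u * (y u + pr c * η * haz T p u) - a u * y u)| ≤
        pr c * (6 * A * (1 + Yc)) := by
      have g1 : |∑ u, (up T p c a i u * (y u + pr c * η * haz T p u) - a u * y u)| ≤
          ∑ u, (a u * kk T p c i u) * (1 + Yc) := by
        refine (Finset.abs_sum_le_sum_abs _ _).trans ?_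
        apply Finset.sum_le_sum; intro u _
        by_cases hau : a u = 0
        · simp [up, hau]
        · have hu : haz T p u ≤ 1 / 2 := by
            rcases hoka u with h | h
            · exact absurd h hau
            · exact h
          have hh0 := haz_nonneg (T := T) hp0 u
          have had := ad_nonneg T i u
          have g2 := abs_fac_sub_one hp0 hu c i
          have g3 := fac_nonneg hu c i
          have g4 := fac_le_two hu c i
          have g5 : up T p c a i u * (y u + pr c * η * haz T p u) - a u * y u =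
              a u * ((fac T p c i u - 1) * y u + fac T p c i u * (pr c * η * haz T p u)) := by
            unfold up; ring
          rw [g5, abs_mul, abs_of_nonneg (ha u), mul_assoc (a u) (kk T p c i u)]
          apply mul_le_mul_of_nonneg_left _ (ha u)
          have g6 : |(fac T p c i u - 1) * y u| ≤ (pr c * (ad T i u + 2 * haz T p u)) * Yc := by
            rw [abs_mul, abs_of_nonneg (hy0 u hau)]
            exact mul_le_mul g2 (hy u hau) (hy0 u hau) (le_trans (abs_nonneg _) g2)
          have g7 : |fac T p c i u * (pr c * η * haz T p u)| ≤ pr c * (2 * haz T p u) := by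
            rw [abs_of_nonneg (by positivity)]
            have g8 : pr c * η * haz T p u ≤ pr c * haz T p u := by
              apply mul_le_mul_of_nonneg_right _ hh0
              calc pr c * η ≤ pr c * 1 := mul_le_mul_of_nonneg_left hη1 hprc
                _ = pr c := mul_one _
            calc fac T p c i u * (pr c * η * haz T p u) ≤ 2 * (pr c * haz T p u) :=
                  mul_le_mul g4 g8 (by positivity) (by norm_num)
              _ = pr c * (2 * haz T p u) := by ring
          calc |(fac T p c i u - 1) * y u + fac T p c i u * (pr c * η * haz T p u)|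
              ≤ |(fac T p c i u - 1) * y u| + |fac T p c i u * (pr c * η * haz T p u)| :=
                abs_add_le _ _
            _ ≤ (pr c * (ad T i u + 2 * haz T p u)) * Yc + pr c * (2 * haz T p u) :=
                add_le_add g6 g7
            _ ≤ kk T p c i u * (1 + Yc) := by
                unfold kk
                have k1 : 0 ≤ pr c * ad T i u := by positivity
                have k2 : 0 ≤ pr c * haz T p u := by positivity
                have k3 : 0 ≤ pr c * ad T i u * Yc := by positivity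
                have k4 : 0 ≤ pr c * haz T p u * Yc := by positivity
                nlinarith
      refine g1.trans ?_
      rw [← Finset.sum_mul]
      calc (∑ u, a u * kk T p c i u) * (1 + Yc) ≤ (pr c * (6 * A)) * (1 + Yc) :=
            mul_le_mul_of_nonneg_right (sum_kk_le hp0 hp1 hA c hi) (by linarith)
        _ = pr c * (6 * A * (1 + Yc)) := by ring
    have f2 : |∑ j ∈ rel, (en T (up T p c a i) (up T p (cc j) (b j) i) - en T a (b j))| ≤
        ∑ j ∈ rel, (pr c + pr (cc j)) * (6 * A ^ 2) := by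
      refine (Finset.abs_sum_le_sum_abs _ _).trans ?_
      apply Finset.sum_le_sum; intro j hj
      exact abs_en_diff ha (hb j hj) hp0 hp1 hoka (hokb j hj) c (cc j) hA0 hA (hB j hj)
        (hAB j hj) (hBA j hj) hi
    have f3 := abs_le.1 f1
    have f4 := abs_le.1 f2
    rw [abs_le]
    constructor <;> linarith [f3.1, f3.2, f4.1, f4.2]

end Pool.Agent.H37.Mart
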