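import Pool.Agent.H37.Mart.PhaseM

set_option autoImplicit false
set_option linter.unusedSectionVars false

/-!
The result of the placement process.
-/

namespace Pool.Agent.H37.Mart

open Finset
open Pool.Agent.H37.Hard (nb mem_nb)

variable {W U : Type*} [Fintype W] [Fintype U] [DecidableEq W] [DecidableEq U]
variable {G : SimpleGraph W} {T : SimpleGraph U} {M H : Finset W} {V0 R I0 : Finset U}
  {Y X0 hm cap a0 dm : ℝ}

lemma sum_pr (G : SimpleGraph W) (w : W) (B : Finset W) :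
    ∑ z ∈ B, pr (G.Adj w z) = ((nb G w ∩ B).card : ℝ) := by
  classical
  have h1 : nb G w ∩ B = B.filter (fun z => G.Adj w z) := by
    ext z
    rw [Finset.mem_inter, Finset.mem_filter, mem_nb]
    tauto
  rw [h1, Finset.card_filter]
  push_cast
  apply Finset.sum_congr rfl; intro z _
  by_cases h : G.Adj w z
  · rw [pr_of h, if_pos h]
  · rw [pr_not h, if_neg h]

lemma sum_codeg (G : SimpleGraph W) (w : W) (M B : Finset W) :
    ∑ z ∈ B, (nb G w ∩ M ∩ nb G z).card = ∑ j ∈ nb G w ∩ M, (nb G j ∩ B).card := by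
  classical
  have h1 : ∀ z, (nb G w ∩ M ∩ nb G z).card = ∑ j ∈ nb G w ∩ M, if G.Adj z j then 1 else 0 := by
    intro z
    rw [← Finset.card_filter]
    congr 1
    ext j
    rw [Finset.mem_inter, Finset.mem_filter, mem_nb]
  have h2 : ∀ j, (nb G j ∩ B).card = ∑ z ∈ B, if G.Adj z j then 1 else 0 := by
    intro j
    rw [← Finset.card_filter]
    congr 1
    ext z
    rw [Finset.mem_inter, Finset.mem_filter, mem_nb, G.adj_comm, and_comm]
  rw [Finset.sum_congr rfl (fun z _ => h1 z), Finset.sum_congr rfl (fun j _ => h2 j)]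
  exact Finset.sum_comm

/-- bound of the total budget -/
lemma sum_Bz_le (s : Setup G T M H V0 R I0 Y X0 hm cap a0 dm) (α : ℝ) :
    ∑ z ∈ H, Bz G M Y α dm cap z + ∑ z ∈ M, Bz G M Y α dm cap z ≤
      2 * M.card * (dm * (576 * α ^ 2 + 2 * be1 Y α dm cap ^ 2) +
        2 * (24 * α ^ 2) ^ 2 * dm ^ 3) := by
  have h0 : ∑ z ∈ H, Bz G M Y α dm cap z + ∑ z ∈ M, Bz G M Y α dm cap z =
      ∑ z ∈ H ∪ M, Bz G M Y α dm cap z := by
    rw [Finset.sum_union s.hMH.symm]
  have hdm0 := s.dm0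
  have h1 : ∑ z ∈ H ∪ M, Bz G M Y α dm cap z =
      ∑ x ∈ M ×ˢ (Finset.univ : Finset Bool), ((576 * α ^ 2 + 2 * be1 Y α dm cap ^ 2) *
        ∑ z ∈ H ∪ M, pr (G.Adj x.1 z) + 2 * (24 * α ^ 2) ^ 2 *
        ∑ z ∈ H ∪ M, ((nb G x.1 ∩ M ∩ nb G z).card : ℝ) ^ 2) := by
    unfold Bz
    rw [Finset.sum_comm]
    apply Finset.sum_congr rfl; intro x _
    rw [Finset.sum_add_distrib, Finset.mul_sum, Finset.mul_sum]
    congr 1
    apply Finset.sum_congr rfl; intro z _
    ring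
  have h2 : ∀ w ∈ M, (576 * α ^ 2 + 2 * be1 Y α dm cap ^ 2) *
        ∑ z ∈ H ∪ M, pr (G.Adj w z) + 2 * (24 * α ^ 2) ^ 2 *
        ∑ z ∈ H ∪ M, ((nb G w ∩ M ∩ nb G z).card : ℝ) ^ 2 ≤
      dm * (576 * α ^ 2 + 2 * be1 Y α dm cap ^ 2) + 2 * (24 * α ^ 2) ^ 2 * dm ^ 3 := by
    intro w hw
    have hwM : ((nb G w ∩ M).card : ℝ) ≤ dm := by
      refine le_trans ?_ (s.b7 w hw)
      exact_mod_cast Finset.card_le_card
        (Finset.inter_subset_inter_left Finset.subset_union_right)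
    rw [sum_pr]
    have h3 := mul_le_mul_of_nonneg_left (s.b7 w hw)
      (by positivity : 0 ≤ 576 * α ^ 2 + 2 * be1 Y α dm cap ^ 2)
    have h4 : ∑ z ∈ H ∪ M, ((nb G w ∩ M ∩ nb G z).card : ℝ) ^ 2 ≤ dm ^ 3 := by
      have h5 : ∑ z ∈ H ∪ M, ((nb G w ∩ M ∩ nb G z).card : ℝ) ^ 2 ≤
          ∑ z ∈ H ∪ M, dm * ((nb G w ∩ M ∩ nb G z).card : ℝ) := by
        apply Finset.sum_le_sum; intro z _
        have h6 : ((nb G w ∩ M ∩ nb G z).card : ℝ) ≤ dm := by
          refine le_trans ?_ hwM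
          exact_mod_cast Finset.card_le_card Finset.inter_subset_left
        rw [sq]
        exact mul_le_mul_of_nonneg_right h6 (by positivity)
      refine h5.trans ?_
      rw [← Finset.mul_sum]
      have h7 : ∑ z ∈ H ∪ M, ((nb G w ∩ M ∩ nb G z).card : ℝ) =
          ∑ j ∈ nb G w ∩ M, ((nb G j ∩ (H ∪ M)).card : ℝ) := by
        exact_mod_cast sum_codeg G w M (H ∪ M)
      rw [h7]
      have h8 : ∑ j ∈ nb G w ∩ M, ((nb G j ∩ (H ∪ M)).card : ℝ) ≤ dm * dm := by
        calc ∑ j ∈ nb G w ∩ M, ((nb G j ∩ (H ∪ M)).card : ℝ) ≤ ∑ j ∈ nb G w ∩ M, dm :=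
              Finset.sum_le_sum (fun j hj => s.b7 j (Finset.mem_inter.1 hj).2)
          _ = ((nb G w ∩ M).card : ℝ) * dm := by rw [Finset.sum_const, nsmul_eq_mul]
          _ ≤ dm * dm := mul_le_mul_of_nonneg_right hwM hdm0
      calc dm * ∑ j ∈ nb G w ∩ M, ((nb G j ∩ (H ∪ M)).card : ℝ) ≤ dm * (dm * dm) :=
            mul_le_mul_of_nonneg_left h8 hdm0
        _ = dm ^ 3 := by ring
    have h9 := mul_le_mul_of_nonneg_left h4 (by positivity : 0 ≤ 2 * (24 * α ^ 2) ^ 2)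
    linarith
  rw [h0, h1]
  calc _ ≤ ∑ x ∈ M ×ˢ (Finset.univ : Finset Bool),
        (dm * (576 * α ^ 2 + 2 * be1 Y α dm cap ^ 2) + 2 * (24 * α ^ 2) ^ 2 * dm ^ 3) :=
        Finset.sum_le_sum (fun x hx => h2 x.1 (Finset.mem_product.1 hx).1)
    _ = _ := by
        rw [Finset.sum_const, nsmul_eq_mul, Finset.card_product, Finset.card_univ,
          Fintype.card_bool]
        push_cast
        ring

/-- the outcome of the process -/
theorem outcome (s : Setup G T M H V0 R I0 Y X0 hm cap a0 dm) :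
    ∃ (ψ : W → U) (PM Bad : Finset W), PM ⊆ M ∧ Bad ⊆ M ∧
      Set.InjOn ψ H ∧ (∀ q ∈ H, ψ q ∈ I0) ∧ Set.InjOn ψ PM ∧ (∀ w ∈ PM, ψ w ∈ V0) ∧
      (∀ w ∈ PM, ∀ q ∈ H ∪ PM, G.Adj w q → ¬ T.Adj (ψ w) (ψ q)) ∧
      (∀ w ∈ M, w ∉ Bad → ∃ Q ⊆ R, 1 / (2 * cap) * R.card ≤ (Q.card : ℝ) ∧
        ∀ r ∈ Q, ∀ y ∈ PM, G.Adj w y → ¬ T.Adj (ψ y) r) ∧
      (Bad.card : ℝ) + ((M \ PM).card : ℝ) ≤
        2 * M.card * (dm * (576 * (cap * a0) ^ 2 + 2 * be1 Y (cap * a0) dm cap ^ 2) +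
        2 * (24 * (cap * a0) ^ 2) ^ 2 * dm ^ 3) + M.card ^ 2 * (2 * cap / V0.card) := by
  classical
  obtain ⟨ψ, m, y, PM, hPM, hinjH, hI0, hinj, hV0, hcf, inv, hpot⟩ :=
    phaseM s M (Finset.Subset.refl _)
  obtain ⟨Bad, hBad⟩ : ∃ Bad, Bad = M.filter (fun w => 1 ≤ pot G T Y X0 m y ∅ (w, true)) :=
    ⟨_, rfl⟩
  refine ⟨ψ, PM, Bad, hPM, by rw [hBad]; exact Finset.filter_subset _ _, hinjH, hI0, hinj, hV0,
    hcf, ?_, ?_⟩
  · intro w hw hwB
    have hlt : pot G T Y X0 m y ∅ (w, true) < 1 := by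
      by_contra hcon
      push Not at hcon
      exact hwB (by rw [hBad, Finset.mem_filter]; exact ⟨hw, hcon⟩)
    have hmass := inv.live_mass s hlt
    obtain ⟨Q, hQ⟩ : ∃ Q, Q = R.filter (fun r => y (w, true) r ≤ Y ∧ m (w, true) r ≠ 0) :=
      ⟨_, rfl⟩
    have hRc : (0 : ℝ) < R.card := by
      have := Finset.card_pos.2 s.hR
      positivity
    have hcap := s.cap_pos
    refine ⟨Q, by rw [hQ]; exact Finset.filter_subset _ _, ?_, ?_⟩
    · have h1 : ∑ u, lv Y (y (w, true)) (m (w, true)) u ≤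
          ∑ u, (if u ∈ Q then cap / (R.card : ℝ) else 0) := by
        apply Finset.sum_le_sum; intro u _
        by_cases hu : lv Y (y (w, true)) (m (w, true)) u = 0
        · rw [hu]; split_ifs
          · positivity
          · exact le_rfl
        · obtain ⟨hu1, hu2⟩ := lv_ne hu
          have huR : u ∈ R := by
            rcases (inv.m_ne hu2).2 with h | h
            · exact h.2
            · exact absurd h.1 (by simp)
          have huQ : u ∈ Q := by
            rw [hQ, Finset.mem_filter]; exact ⟨huR, hu1, hu2⟩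
          rw [if_pos huQ, lv_of hu1]
          refine (inv.cap_le s (Finset.Subset.refl _) (w, true) u).trans ?_
          unfold base
          simp only [hw, if_true, huR]
          rw [one_div, inv_mul_eq_div]
      rw [Finset.sum_ite_mem, Finset.univ_inter, Finset.sum_const, nsmul_eq_mul] at h1
      have h2 : 1 / 2 ≤ (Q.card : ℝ) * (cap / R.card) := hmass.trans h1
      have h3 : (Q.card : ℝ) * (cap / R.card) = ((Q.card : ℝ) * cap) / R.card := by ring
      rw [h3, le_div_iff₀ hRc] at h2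
      have h4 : 1 / (2 * cap) * (R.card : ℝ) = (1 / 2 * R.card) / cap := by field_simp
      rw [h4, div_le_iff₀ hcap]
      exact h2
    · intro r hr q hq hadj
      rw [hQ, Finset.mem_filter] at hr
      exact inv.av (w, true) r hr.2.1 hr.2.2 q (Finset.mem_union_right _ hq) hadj
  · have hsd : M \ M = ∅ := Finset.sdiff_self M
    rw [hsd] at hpot
    have h1 : (Bad.card : ℝ) ≤ ∑ x ∈ act M ∅, pot G T Y X0 m y ∅ x := by
      have h2 : (Bad.card : ℝ) ≤ ∑ w ∈ Bad, pot G T Y X0 m y ∅ (w, true) := by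
        have h3 : (Bad.card : ℝ) = ∑ w ∈ Bad, (1 : ℝ) := by simp
        rw [h3]
        apply Finset.sum_le_sum; intro w hw
        rw [hBad, Finset.mem_filter] at hw
        exact hw.2
      refine h2.trans ?_
      have h4 : ∑ w ∈ Bad, pot G T Y X0 m y ∅ (w, true) =
          ∑ x ∈ Bad.image (fun w => (w, true)), pot G T Y X0 m y ∅ x := by
        rw [Finset.sum_image]
        intro a _ b _ hab
        exact (Prod.mk.inj hab).1
      rw [h4]
      apply Finset.sum_le_sum_of_subset_of_nonneg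
      · intro x hx
        rw [Finset.mem_image] at hx
        obtain ⟨w, hw, rfl⟩ := hx
        rw [mem_act]
        left
        rw [hBad, Finset.mem_filter] at hw
        exact ⟨hw.1, rfl⟩
      · intro x _ _
        exact pot_nonneg _ x
    have h5 := sum_Bz_le s (cap * a0)
    rw [Finset.sum_add_distrib, Finset.sum_const, nsmul_eq_mul] at hpot
    have h6 : (M.card : ℝ) * (M.card * (2 * cap / V0.card)) = M.card ^ 2 * (2 * cap / V0.card) := by
      ring
    rw [h6] at hpot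
    linarith

end Pool.Agent.H37.Mart
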