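import Pool.Agent.H37.Mart.MainLog
import Pool.Agent.H37.Final1

set_option autoImplicit false

/-!
Translation of the main theorem to graph homomorphisms.
-/

namespace Pool.Agent.H37.Mart

open Finset Pool.Agent.H37

/-- `R(3, G) ≤ k + 40000 m / log (m / k)` for `m > k`. -/
theorem ramsey_log (V : Type) [Fintype V] (G : SimpleGraph V) (N : ℕ)
    (hkm : Fintype.card V < G.edgeSet.ncard)
    (hN : (Fintype.card V : ℝ) + 40000 * (G.edgeSet.ncard : ℝ) /
      Real.log ((G.edgeSet.ncard : ℝ) / (Fintype.card V : ℝ)) ≤ (N : ℝ))
    (H : SimpleGraph (Fin N)) : ¬ H.CliqueFree 3 ∨ ∃ f : G →g Hᶜ, Function.Injective f := by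
  classical
  by_cases hH : H.CliqueFree 3
  · right
    have hk : 0 < Fintype.card V := by
      rcases Nat.eq_zero_or_pos (Fintype.card V) with h | h
      · exfalso
        have hV : IsEmpty V := Fintype.card_eq_zero_iff.1 h
        have h0 : G.edgeSet.ncard = 0 := by
          have : G.edgeSet = ∅ := by
            rw [Set.eq_empty_iff_forall_notMem]
            intro e _
            induction e using Sym2.ind with
            | _ a b => exact hV.false a
          rw [this]; simp
        omega
      · exact h
    have hkr : (0 : ℝ) < Fintype.card V := by exact_mod_cast hk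
    have hkmr : (Fintype.card V : ℝ) < G.edgeSet.ncard := by exact_mod_cast hkm
    have hlog : 0 < Real.log ((G.edgeSet.ncard : ℝ) / (Fintype.card V : ℝ)) :=
      Real.log_pos (by rw [one_lt_div hkr]; exact hkmr)
    have hNpos : 0 < N := by
      have h1 : 0 ≤ 40000 * (G.edgeSet.ncard : ℝ) /
        Real.log ((G.edgeSet.ncard : ℝ) / (Fintype.card V : ℝ)) := by positivity
      have h2 : (0 : ℝ) < N := by linarith
      exact_mod_cast h2
    have hne : Nonempty (Fin N) := ⟨⟨0, hNpos⟩⟩
    apply hom_of_embOn
    exact main_log G H (indep_of_cliqueFree hH) hkm (by rw [Fintype.card_fin]; exact hN)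
  · left; exact hH

end Pool.Agent.H37.Mart
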