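import Pool.Agent.H37.Mart.Extract
import Pool.Agent.H37.HC.Rescue
import Pool.Agent.H37.Greedy

set_option autoImplicit false
set_option linter.unusedSectionVars false

/-!
The embedding lemma with exponential dependence of the constants.
-/

namespace Pool.Agent.H37.Mart

open Finset
open Pool.Agent.H37 Pool.Agent.H37.HC
open Pool.Agent.H37.Hard (nb mem_nb)

universe u v

/-- the numerical estimate of the total loss -/
lemma num_total {C K D N cap Y a0 dm mm v0 : ℝ} (hC : 1 ≤ C) (hK0 : 0 < K) (hKC : K ≤ C)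
    (hD : 0 < D) (hN : 0 < N) (hcap : 384 * C + 10 ≤ cap) (hY : Y = 128 * C + 4)
    (ha0 : a0 = 8 * D / N) (hdm : dm = C * N / D) (hm0 : 0 ≤ mm) (hmm : mm ≤ K * D)
    (hv0 : N / 8 ≤ v0) :
    2 * mm * (dm * (576 * (cap * a0) ^ 2 + 2 * be1 Y (cap * a0) dm cap ^ 2) +
        2 * (24 * (cap * a0) ^ 2) ^ 2 * dm ^ 3) + mm ^ 2 * (2 * cap / v0) ≤
      cap ^ 8 * (D / N) * D / 48 := by
  have hcap10 : 10 ≤ cap := by linarith
  have hcap0 : 0 < cap := by linarith
  have hC0 : 0 < C := by linarith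
  obtain ⟨x, hx⟩ : ∃ x : ℝ, x = D / N := ⟨_, rfl⟩
  have hx0 : 0 < x := by rw [hx]; positivity
  have ha0' : a0 = 8 * x := by rw [ha0, hx]; ring
  have hdmx : dm * x = C := by rw [hdm, hx]; field_simp
  obtain ⟨α, hα⟩ : ∃ α : ℝ, α = cap * a0 := ⟨_, rfl⟩
  rw [← hα, ← hx]
  have hα' : α = 8 * cap * x := by rw [hα, ha0']; ring
  have hα0 : 0 < α := by rw [hα']; positivity
  have hdm0 : 0 < dm := by rw [hdm]; positivity
  have hαdm : α * dm = 8 * cap * C := by
    rw [hα', ← hdmx]; ring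
  have hCcap : 384 * C ≤ cap := by linarith
  -- be1
  have hbe : be1 Y α dm cap ≤ α * cap ^ 2 := by
    have h1 : be1 Y α dm cap = α * (6 * (1 + Y) + 24 * (α * dm) + 4 * cap) := by
      unfold be1; ring
    rw [h1, hαdm]
    apply mul_le_mul_of_nonneg_left _ hα0.le
    have h2 : 6 * (1 + Y) ≤ 6 * cap := by rw [hY]; linarith
    have h3 : 10 + 192 * C ≤ cap := by linarith
    have h4 := mul_le_mul_of_nonneg_left h3 hcap0.le
    nlinarith
  have hbe0 : 0 ≤ be1 Y α dm cap := by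
    unfold be1
    have : 0 ≤ 1 + Y := by rw [hY]; linarith
    positivity
  have hbe2 : be1 Y α dm cap ^ 2 ≤ α ^ 2 * cap ^ 4 := by
    calc be1 Y α dm cap ^ 2 ≤ (α * cap ^ 2) ^ 2 := pow_le_pow_left₀ hbe0 hbe 2
      _ = α ^ 2 * cap ^ 4 := by ring
  have hcap4 : (576 : ℝ) ≤ cap ^ 4 := by
    calc (576 : ℝ) ≤ 10 ^ 4 := by norm_num
      _ ≤ cap ^ 4 := pow_le_pow_left₀ (by norm_num) hcap10 4
  have h1 : dm * (576 * α ^ 2 + 2 * be1 Y α dm cap ^ 2) ≤ cap ^ 7 * x := by
    have h2 : 576 * α ^ 2 + 2 * be1 Y α dm cap ^ 2 ≤ 3 * (α ^ 2 * cap ^ 4) := by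
      have h3 : 576 * α ^ 2 ≤ cap ^ 4 * α ^ 2 := mul_le_mul_of_nonneg_right hcap4 (by positivity)
      nlinarith
    have h4 := mul_le_mul_of_nonneg_left h2 hdm0.le
    refine h4.trans ?_
    have h5 : dm * (3 * (α ^ 2 * cap ^ 4)) = (192 * C) * (cap ^ 6 * x) := by
      have : dm * (3 * (α ^ 2 * cap ^ 4)) = 3 * (α * dm) * α * cap ^ 4 := by ring
      rw [this, hαdm, hα']; ring
    rw [h5]
    calc (192 * C) * (cap ^ 6 * x) ≤ cap * (cap ^ 6 * x) :=
          mul_le_mul_of_nonneg_right (by linarith) (by positivity)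
      _ = cap ^ 7 * x := by ring
  have h2 : 2 * (24 * α ^ 2) ^ 2 * dm ^ 3 ≤ cap ^ 7 * x := by
    have h3 : 2 * (24 * α ^ 2) ^ 2 * dm ^ 3 = 1152 * α * (α * dm) ^ 3 := by ring
    rw [h3, hαdm, hα']
    have h4 : 1152 * (8 * cap * x) * (8 * cap * C) ^ 3 =
        (384 * C) ^ 3 * (cap ^ 4 * x) * (1 / 12) := by ring
    rw [h4]
    have h5 : (384 * C) ^ 3 ≤ cap ^ 3 := pow_le_pow_left₀ (by positivity) hCcap 3
    have h6 := mul_le_mul_of_nonneg_right h5 (by positivity : 0 ≤ cap ^ 4 * x)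
    have h7 : cap ^ 3 * (cap ^ 4 * x) = cap ^ 7 * x := by ring
    have h8 : 0 ≤ cap ^ 7 * x := by positivity
    rw [h7] at h6
    linarith
  have hKcap : 384 * K ≤ cap := by linarith
  have h3 : 2 * mm * (dm * (576 * α ^ 2 + 2 * be1 Y α dm cap ^ 2) +
        2 * (24 * α ^ 2) ^ 2 * dm ^ 3) ≤ cap ^ 8 * x * D / 96 := by
    calc _ ≤ 2 * (K * D) * (cap ^ 7 * x + cap ^ 7 * x) :=
          mul_le_mul (by linarith) (by linarith) (by positivity) (by positivity)
      _ = (384 * K) * (cap ^ 7 * x * D) / 96 := by ring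
      _ ≤ cap * (cap ^ 7 * x * D) / 96 := by
          apply div_le_div_of_nonneg_right _ (by norm_num)
          exact mul_le_mul_of_nonneg_right hKcap (by positivity)
      _ = cap ^ 8 * x * D / 96 := by ring
  have h4 : mm ^ 2 * (2 * cap / v0) ≤ cap ^ 8 * x * D / 96 := by
    have h5 : 2 * cap / v0 ≤ 16 * cap / N := by
      rw [div_le_div_iff₀ (by linarith [div_pos hN (by norm_num : (0 : ℝ) < 8)]) hN]
      nlinarith
    have h6 : mm ^ 2 ≤ (K * D) ^ 2 := pow_le_pow_left₀ hm0 hmm 2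
    calc mm ^ 2 * (2 * cap / v0) ≤ (K * D) ^ 2 * (16 * cap / N) := by
          apply mul_le_mul h6 h5 _ (by positivity)
          have : 0 < v0 := by linarith [div_pos hN (by norm_num : (0 : ℝ) < 8)]
          positivity
      _ = (384 * K) ^ 2 * (cap * x * D) / 9216 := by
          rw [hx]; field_simp; ring
      _ ≤ cap ^ 2 * (cap * x * D) / 9216 := by
          apply div_le_div_of_nonneg_right _ (by norm_num)
          apply mul_le_mul_of_nonneg_right _ (by positivity)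
          exact pow_le_pow_left₀ (by positivity) hKcap 2
      _ ≤ cap ^ 8 * x * D / 96 := by
          have h7 : (1 : ℝ) ≤ cap ^ 5 := one_le_pow₀ (by linarith)
          have h8 : 0 ≤ cap ^ 3 * x * D := by positivity
          have h9 := mul_le_mul_of_nonneg_right h7 h8
          have h10 : cap ^ 5 * (cap ^ 3 * x * D) = cap ^ 8 * x * D := by ring
          rw [h10, one_mul] at h9
          have h11 : cap ^ 2 * (cap * x * D) = cap ^ 3 * x * D := by ring
          rw [h11]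
          linarith
  linarith

theorem lemmaG {C K : ℝ} (hC : 1 ≤ C) (hK0 : 0 < K) (hKC : K ≤ C)
    {W : Type u} {U : Type v} [Fintype W] [Fintype U] [DecidableEq W]
    [DecidableEq U] (G : SimpleGraph W) (T : SimpleGraph U) (D : ℕ) (I : Finset U)
    (A S : Finset W)
    (hT : ∀ u a b, T.Adj u a → T.Adj u b → ¬ T.Adj a b) (hD : ∀ x, (nb T x).card ≤ D)
    (hI : ∀ a ∈ I, ∀ b ∈ I, ¬ T.Adj a b) (hIc : I.card = D) (hD6 : 6 ≤ D)
    (hNbig : Real.exp (384 * C + 9) ^ 10 * D ≤ (Fintype.card U : ℝ))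
    (hSA : S ⊆ A) (hSc : (S.card : ℝ) ≤ 1 / 4 * D) (hAc : (A.card : ℝ) ≤ K * D)
    (hdeg : ∀ w ∈ A \ S, ((nb G w ∩ A).card : ℝ) * D ≤ C * (Fintype.card U : ℝ)) :
    EmbOn G T A := by
  classical
  obtain ⟨cap, hcap⟩ : ∃ cap : ℝ, cap = Real.exp (384 * C + 9) := ⟨_, rfl⟩
  rw [← hcap] at hNbig
  obtain ⟨N, hN⟩ : ∃ N : ℝ, N = (Fintype.card U : ℝ) := ⟨_, rfl⟩
  rw [← hN] at hNbig
  simp only [← hN] at hdeg
  have hcapC : 384 * C + 10 ≤ cap := by
    rw [hcap]
    have := Real.add_one_le_exp (384 * C + 9)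
    linarith
  have hcap10 : 394 ≤ cap := by linarith
  have hcap0 : 0 < cap := by linarith
  have hC0 : 0 < C := by linarith
  have hDr6 : (6 : ℝ) ≤ D := by exact_mod_cast hD6
  have hDr : (0 : ℝ) < D := by linarith
  have hcap9 : (1 : ℝ) ≤ cap ^ 9 := one_le_pow₀ (by linarith)
  have hcap10' : cap ≤ cap ^ 10 := by
    calc cap = 1 * cap := (one_mul _).symm
      _ ≤ cap ^ 9 * cap := mul_le_mul_of_nonneg_right hcap9 hcap0.le
      _ = cap ^ 10 := by ring
  have hcap32 : 32 * cap ≤ cap ^ 10 := by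
    have h1 : (32 : ℝ) ≤ cap ^ 9 := by
      calc (32 : ℝ) ≤ 394 ^ 1 := by norm_num
        _ ≤ 394 ^ 9 := pow_le_pow_right₀ (by norm_num) (by norm_num)
        _ ≤ cap ^ 9 := pow_le_pow_left₀ (by norm_num) hcap10 9
    calc 32 * cap ≤ cap ^ 9 * cap := mul_le_mul_of_nonneg_right h1 hcap0.le
      _ = cap ^ 10 := by ring
  have hN1 : 32 * cap * D ≤ N := le_trans (mul_le_mul_of_nonneg_right hcap32 hDr.le) hNbig
  have hN128 : 128 * D ≤ N := by
    refine le_trans ?_ hN1
    apply mul_le_mul_of_nonneg_right _ hDr.le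
    linarith
  have hN0 : 0 < N := by linarith
  have hU : Nonempty U := by
    rw [← Fintype.card_pos_iff]
    rw [hN] at hN0
    exact_mod_cast hN0
  -- the reserved set
  have hnD : ⌊3 / 4 * (D : ℝ) / 2⌋₊ ≤ I.card := by
    rw [hIc]
    apply Nat.floor_le_of_le
    linarith
  obtain ⟨R, hRI, hRc⟩ := Finset.exists_subset_card_eq hnD
  have hRc1 : (R.card : ℝ) ≤ 3 / 8 * D := by
    rw [hRc]
    have := Nat.floor_le (by positivity : 0 ≤ 3 / 4 * (D : ℝ) / 2)
    linarith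
  have hRc2 : 3 / 16 * D ≤ (R.card : ℝ) := by
    rw [hRc]
    have := Nat.lt_floor_add_one (3 / 4 * (D : ℝ) / 2)
    linarith
  have hRr : (0 : ℝ) < R.card := by linarith
  have hRpos : 0 < R.card := by exact_mod_cast hRr
  have hI0c : ((I \ R).card : ℝ) = D - R.card := by
    rw [Finset.card_sdiff_of_subset hRI, Nat.cast_sub (Finset.card_le_card hRI), hIc]
  have hI0D : (I \ R).card ≤ D := by
    rw [← hIc]; exact Finset.card_le_card Finset.sdiff_subset
  obtain ⟨V0, hV0c, hV0I, hV0R, hV0I0⟩ := exists_V0 T I R (I \ R) (D := D) hD (by omega)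
    (τ := 1 / 4) (by norm_num) (by norm_num) hIc.le hI0D hRpos (by rw [← hN]; norm_num; linarith)
  rw [← hN] at hV0c
  simp only [← hN] at hV0R hV0I0
  have hV0c' : N / 8 ≤ (V0.card : ℝ) := by
    refine le_trans (le_of_eq ?_) hV0c
    ring
  have hV0r : (0 : ℝ) < V0.card := by linarith
  have hV0pos : 0 < V0.card := by exact_mod_cast hV0r
  obtain ⟨M, hM⟩ : ∃ M, M = A \ S := ⟨_, rfl⟩
  rw [← hM] at hdeg
  have hMA : M ⊆ A := by rw [hM]; exact Finset.sdiff_subset
  have hSM : S ∪ M = A := by rw [hM]; exact Finset.union_sdiff_of_subset hSA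
  obtain ⟨a0, ha0⟩ : ∃ a0 : ℝ, a0 = 8 * D / N := ⟨_, rfl⟩
  obtain ⟨dm, hdm⟩ : ∃ dm : ℝ, dm = C * N / D := ⟨_, rfl⟩
  obtain ⟨hm, hhm⟩ : ∃ hm : ℝ, hm = 64 * D / N := ⟨_, rfl⟩
  have hdm0 : 0 < dm := by rw [hdm]; positivity
  have ha00 : 0 < a0 := by rw [ha0]; positivity
  have hhm0 : 0 < hm := by rw [hhm]; positivity
  have hdma : dm * a0 = 8 * C := by rw [hdm, ha0]; field_simp
  have hhmd : hm * dm = 64 * C := by rw [hdm, hhm]; field_simp
  have hdegle : ∀ w ∈ M, ((nb G w ∩ A).card : ℝ) ≤ dm := by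
    intro w hw
    rw [hdm, le_div_iff₀ hDr]
    exact hdeg w hw
  have s : Setup G T M S V0 R (I \ R) (128 * C + 4) (32 * C) hm cap a0 dm := by
    refine ⟨hT, ?_, Finset.card_pos.1 hV0pos, Finset.card_pos.1 hRpos, ?_, ?_, ?_, ?_, ?_, hhm0.le,
      ?_, ha00.le, hdm0.le, ?_, ?_, ?_, ?_, ?_⟩
    · rw [hM]; exact Finset.sdiff_disjoint
    · intro i hi r hr
      exact hI i (Finset.mem_sdiff.1 hi).1 r (hRI hr)
    · intro u
      have h1 : ((nb T u ∩ V0).card : ℝ) ≤ D := by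
        exact_mod_cast (Finset.card_le_card Finset.inter_subset_left).trans (hD u)
      refine h1.trans ?_
      calc (D : ℝ) = 8 * D / N * (N / 8) := by field_simp
        _ ≤ a0 * V0.card := by
            rw [← ha0]
            exact mul_le_mul_of_nonneg_left hV0c' ha00.le
    · intro v hv
      refine (hV0R v hv).trans ?_
      have h1 : (1 + 1 / 4) * (R.card : ℝ) * D / N = 5 / 4 * (D / N) * R.card := by ring
      have h2 : a0 = 8 * (D / N) := by rw [ha0]; ring
      rw [h1, h2]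
      apply mul_le_mul_of_nonneg_right _ hRr.le
      have : 0 < (D : ℝ) / N := by positivity
      linarith
    · intro u hu
      refine (hV0I0 u hu).trans ?_
      have h1 : 1 / 4 * (D : ℝ) ≤ ((I \ R).card : ℝ) - S.card := by rw [hI0c]; linarith
      calc 4 / (1 / 4) * (D : ℝ) ^ 2 / N = hm * (1 / 4 * D) := by rw [hhm]; ring
        _ ≤ hm * (((I \ R).card : ℝ) - S.card) := mul_le_mul_of_nonneg_left h1 hhm0.le
    · have h1 : (S.card : ℝ) < ((I \ R).card : ℝ) := by rw [hI0c]; linarith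
      exact_mod_cast h1
    · rw [hhm, div_le_iff₀ hN0]; linarith
    · rw [hcap]
      apply Real.exp_le_exp.2
      have : 2 * hm * dm = 128 * C := by rw [mul_assoc, hhmd]; ring
      rw [this]; linarith
    · rw [ha0, mul_div_assoc', div_le_iff₀ hN0]
      linarith
    · intro w hw
      rw [hSM]; exact hdegle w hw
    · rw [hdma]; linarith
    · linarith
  obtain ⟨ψ, PM, Bad, hPM, hBadM, hinjS, hψI, hinjP, hψV, hcf, hQ, htot⟩ := outcome s
  obtain ⟨θ, hθ⟩ : ∃ θ : ℝ, θ = 5 / 4 * D / N := ⟨_, rfl⟩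
  have hθ0 : 0 ≤ θ := by rw [hθ]; positivity
  have hdgθ : dm * θ = 5 / 4 * C := by rw [hdm, hθ]; field_simp
  have hVθ : ∀ v ∈ V0, ((nb T v ∩ R).card : ℝ) ≤ θ * R.card := by
    intro v hv
    refine (hV0R v hv).trans (le_of_eq ?_)
    rw [hθ]; ring
  have hMc : (M.card : ℝ) ≤ K * D := le_trans (by exact_mod_cast Finset.card_le_card hMA) hAc
  have htot2 := htot.trans (num_total (C := C) (K := K) (D := D) (N := N) (cap := cap)
    (Y := 128 * C + 4) (a0 := a0) (dm := dm) (mm := M.card) (v0 := V0.card) hC hK0 hKC hDr hN0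
    hcapC rfl ha0 hdm (Nat.cast_nonneg _) hMc hV0c')
  obtain ⟨P', hP'P, h, hh1, hh2, hh3⟩ := rescue (G := G) (T := T) (M := M) (P := PM) (X0 := Bad)
    (R := R) (g := ψ) (θ := θ) (dg := dm) (δ := 1 / (2 * cap)) hθ0 hdm0.le
    (by
      rw [div_le_div_iff₀ (by positivity) (by norm_num)]
      linarith)
    (fun w hw hwB => hQ w hw hwB)
    (fun y hy => hVθ _ (hψV y hy))
    (fun w hw => by
      refine le_trans ?_ (hdegle w (hBadM hw))
      exact_mod_cast Finset.card_le_card (Finset.inter_subset_inter_left (hPM.trans hMA)))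
    (by
      have h1 : (1 + 2 * dm * θ) = 1 + 5 / 2 * C := by rw [mul_assoc, hdgθ]; ring
      rw [h1]
      have h2 : 1 + 5 / 2 * C ≤ cap := by linarith
      have hb : (0 : ℝ) ≤ Bad.card := by positivity
      have hp : (0 : ℝ) ≤ ((M \ PM).card : ℝ) := by positivity
      have h3 : (1 + 5 / 2 * C) * (Bad.card : ℝ) + ((M \ PM).card : ℝ) ≤
          cap * (cap ^ 8 * (D / N) * D / 48) := by
        calc (1 + 5 / 2 * C) * (Bad.card : ℝ) + ((M \ PM).card : ℝ)
            ≤ cap * (Bad.card : ℝ) + cap * ((M \ PM).card : ℝ) := by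
              apply add_le_add (mul_le_mul_of_nonneg_right h2 hb)
              nlinarith
          _ = cap * ((Bad.card : ℝ) + ((M \ PM).card : ℝ)) := by ring
          _ ≤ _ := mul_le_mul_of_nonneg_left htot2 hcap0.le
      refine h3.trans ?_
      have h4 : cap ^ 10 * (D / N) ≤ 1 := by
        rw [mul_div_assoc', div_le_one hN0]; exact hNbig
      have h5 : cap * (cap ^ 8 * (D / N) * D / 48) =
          (cap ^ 10 * (D / N)) * D / (48 * cap) := by field_simp
      rw [h5]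
      calc (cap ^ 10 * ((D : ℝ) / N)) * D / (48 * cap) ≤ 1 * D / (48 * cap) := by
            apply div_le_div_of_nonneg_right _ (by positivity)
            exact mul_le_mul_of_nonneg_right h4 hDr.le
        _ = 1 / (2 * cap) * (1 / 24 * D) := by field_simp; ring
        _ ≤ 1 / (2 * cap) * R.card := by
            apply mul_le_mul_of_nonneg_left _ (by positivity)
            linarith)
  rw [hM] at hh1 hh2 hh3
  exact glue hI hRI hV0I ψ ψ h hinjS hψI (hinjP.mono (by exact_mod_cast hP'P))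
    (fun w hw => hψV w (hP'P hw))
    (fun w hw y hy hadj hTa => hcf w (hP'P hw) y (Finset.mem_union_left _ hy) hadj hTa.symm)
    (fun w hw w' hw' => hcf w (hP'P hw) w' (Finset.mem_union_right _ (hP'P hw'))) hh1 hh2 hh3
    (fun w hw => (Finset.mem_sdiff.1 (hM ▸ hPM (hP'P hw))).2)

end Pool.Agent.H37.Mart
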