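import Pool.Agent.H37.Mart.LemmaG
import Pool.Agent.H37.Split

set_option autoImplicit false
set_option linter.unusedSectionVars false

/-!
`R(3, G) ≤ k + 40000 m / log (m / k)`.
-/

namespace Pool.Agent.H37.Mart

open Finset
open Pool.Agent.H37
open Pool.Agent.H37.Hard (nb mem_nb)

universe u v

/-- the embedding theorem in terms of finsets -/
theorem main_log {W : Type u} {U : Type v} [Fintype W]
    [Fintype U] [DecidableEq W] [DecidableEq U] [Nonempty U] (G : SimpleGraph W)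
    (T : SimpleGraph U) (hT : ∀ u a b, T.Adj u a → T.Adj u b → ¬ T.Adj a b)
    (hkm : Fintype.card W < G.edgeSet.ncard)
    (hN : (Fintype.card W : ℝ) + 40000 * (G.edgeSet.ncard : ℝ) /
      Real.log ((G.edgeSet.ncard : ℝ) / (Fintype.card W : ℝ)) ≤ (Fintype.card U : ℝ)) :
    EmbOn G T Finset.univ := by
  classical
  obtain ⟨m, hmdef⟩ : ∃ m, m = G.edgeSet.ncard := ⟨_, rfl⟩
  rw [← hmdef] at hN hkm
  obtain ⟨k, hk⟩ : ∃ k, k = Fintype.card W := ⟨_, rfl⟩
  rw [← hk] at hN hkm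
  obtain ⟨x0, _, hx0⟩ := Finset.exists_max_image (Finset.univ : Finset U) (fun x => (nb T x).card)
    Finset.univ_nonempty
  obtain ⟨D, hDdef⟩ : ∃ D, D = (nb T x0).card := ⟨_, rfl⟩
  rw [← hDdef] at hx0
  have hD : ∀ x, (nb T x).card ≤ D := fun x => hx0 x (Finset.mem_univ x)
  have hI : ∀ a ∈ nb T x0, ∀ b ∈ nb T x0, ¬ T.Adj a b :=
    fun a ha b hb => hT x0 a b (mem_nb.1 ha) (mem_nb.1 hb)
  by_cases hDk : k ≤ D
  · exact embOn_of_card_le hI Finset.univ (by rw [Finset.card_univ, ← hDdef, ← hk]; exact hDk)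
  push Not at hDk
  -- the parameter
  have hkpos : 0 < k := by omega
  have hkr : (0 : ℝ) < k := by exact_mod_cast hkpos
  have hkmr : (k : ℝ) < m := by exact_mod_cast hkm
  have hmr : (0 : ℝ) < m := by linarith
  obtain ⟨ℓ, hℓ⟩ : ∃ ℓ : ℝ, ℓ = Real.log ((m : ℝ) / k) / 40000 := ⟨_, rfl⟩
  have hlog : 0 < Real.log ((m : ℝ) / k) := Real.log_pos (by rw [one_lt_div hkr]; exact hkmr)
  have hℓ0 : 0 < ℓ := by rw [hℓ]; positivity
  have hexp : (m : ℝ) = k * Real.exp (40000 * ℓ) := by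
    have h1 : 40000 * ℓ = Real.log ((m : ℝ) / k) := by rw [hℓ]; ring
    rw [h1, Real.exp_log (by positivity)]
    field_simp
  have hml : 40000 * (m : ℝ) / Real.log ((m : ℝ) / k) = m / ℓ := by
    rw [hℓ]; field_simp
  rw [hml] at hN
  have hkU : k ≤ Fintype.card U := by
    have h1 : 0 < (m : ℝ) / ℓ := by positivity
    have h2 : (k : ℝ) ≤ (Fintype.card U : ℝ) := by linarith
    exact_mod_cast h2
  obtain ⟨n', hn'⟩ := Nat.exists_eq_add_of_le hkU
  have hNr : (Fintype.card U : ℝ) = (k : ℝ) + n' := by exact_mod_cast hn'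
  have hn'm : (m : ℝ) / ℓ ≤ n' := by linarith
  have hn'U : (n' : ℝ) ≤ (Fintype.card U : ℝ) := by linarith
  have hn'pos : (0 : ℝ) < n' := lt_of_lt_of_le (by positivity) hn'm
  have hmn' : (m : ℝ) ≤ ℓ * n' := by
    rw [div_le_iff₀ hℓ0] at hn'm
    linarith
  apply emb_of_core hD (m := n') (by rw [← hk]; omega)
  intro A hAne hcore
  obtain ⟨v0, hv0⟩ := hAne
  have hDpos : 0 < D := by
    rcases Nat.eq_zero_or_pos D with h | h
    · have := hcore v0 hv0
      rw [h] at this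
      simp at this
    · exact h
  have hDr : (0 : ℝ) < D := by exact_mod_cast hDpos
  have hDkr : (D : ℝ) ≤ k := by exact_mod_cast hDk.le
  have hcore' : ∀ v ∈ A, (n' : ℝ) / D < ((nb G v ∩ A).card : ℝ) := by
    intro v hv
    rw [div_lt_iff₀ hDr]
    exact_mod_cast hcore v hv
  have hdd : (dd G A : ℝ) ≤ 2 * m := by
    rw [hmdef]; exact_mod_cast dd_le G A
  have hddA : ∑ v ∈ A, ((nb G v ∩ A).card : ℝ) = (dd G A : ℝ) := by unfold dd; push_cast; rfl
  have hAsum : (A.card : ℝ) * ((n' : ℝ) / D) ≤ 2 * m := by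
    have h1 : ∑ v ∈ A, (n' : ℝ) / D ≤ ∑ v ∈ A, ((nb G v ∩ A).card : ℝ) :=
      Finset.sum_le_sum (fun v hv => (hcore' v hv).le)
    rw [Finset.sum_const, nsmul_eq_mul, hddA] at h1
    exact h1.trans hdd
  have hA2 : (A.card : ℝ) ≤ 2 * ℓ * D := by
    have h2 : (A.card : ℝ) * ((n' : ℝ) / D) ≤ (2 * ℓ * D) * ((n' : ℝ) / D) := by
      have h3 : (2 * ℓ * D) * ((n' : ℝ) / D) = 2 * ℓ * n' := by field_simp
      rw [h3]
      linarith
    exact le_of_mul_le_mul_right h2 (by positivity)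
  by_cases hsmall : ℓ ≤ 1 / 2
  · -- the core is smaller than the neighbourhood
    have h1 : (A.card : ℝ) ≤ D := by
      refine hA2.trans ?_
      calc 2 * ℓ * D ≤ 1 * D := mul_le_mul_of_nonneg_right (by linarith) hDr.le
        _ = D := one_mul _
    exact embOn_of_card_le hI A (by rw [← hDdef]; exact_mod_cast h1)
  push Not at hsmall
  have hexp1 : ∀ t : ℝ, t ≤ Real.exp t := fun t => by
    have := Real.add_one_le_exp t
    linarith
  have hmD : D * Real.exp (40000 * ℓ) ≤ m := by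
    rw [hexp]
    exact mul_le_mul_of_nonneg_right hDkr (Real.exp_pos _).le
  have hD6 : 6 ≤ D := by
    have h1 := hcore' v0 hv0
    have h2 : ((nb G v0 ∩ A).card : ℝ) ≤ A.card := by
      exact_mod_cast Finset.card_le_card Finset.inter_subset_right
    have h3 : (n' : ℝ) / D < 2 * ℓ * D := by linarith
    rw [div_lt_iff₀ hDr] at h3
    have h4 : D * Real.exp (40000 * ℓ) < (2 * ℓ ^ 2 * D) * D := by
      calc D * Real.exp (40000 * ℓ) ≤ m := hmD
        _ ≤ ℓ * n' := hmn'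
        _ < ℓ * (2 * ℓ * D * D) := mul_lt_mul_of_pos_left h3 hℓ0
        _ = (2 * ℓ ^ 2 * D) * D := by ring
    have h5 : Real.exp (40000 * ℓ) < 2 * ℓ ^ 2 * D := by
      have h6 : D * Real.exp (40000 * ℓ) < D * (2 * ℓ ^ 2 * D) := by linarith
      exact lt_of_mul_lt_mul_left h6 hDr.le
    have h7 : 12 * ℓ ^ 2 ≤ Real.exp (40000 * ℓ) := by
      have h8 : Real.exp (40000 * ℓ) = Real.exp (20000 * ℓ) ^ 2 := by
        rw [← Real.exp_nat_mul]; congr 1; push_cast; ring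
      have h9 : 20000 * ℓ ≤ Real.exp (20000 * ℓ) := hexp1 _
      rw [h8]
      calc 12 * ℓ ^ 2 ≤ (20000 * ℓ) ^ 2 := by nlinarith [sq_nonneg ℓ]
        _ ≤ Real.exp (20000 * ℓ) ^ 2 := pow_le_pow_left₀ (by positivity) h9 2
    have h10 : 2 * ℓ ^ 2 * 6 < 2 * ℓ ^ 2 * D := by linarith
    have h11 : (6 : ℝ) < D := lt_of_mul_lt_mul_left h10 (by positivity)
    have h12 : 6 < D := by exact_mod_cast h11
    omega
  have hNbig : Real.exp (384 * (8 * ℓ) + 9) ^ 10 * D ≤ (Fintype.card U : ℝ) := by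
    refine le_trans ?_ hn'U
    refine le_trans ?_ hn'm
    rw [le_div_iff₀ hℓ0]
    refine le_trans ?_ hmD
    rw [← Real.exp_nat_mul]
    have h1 : Real.exp (((10 : ℕ) : ℝ) * (384 * (8 * ℓ) + 9)) * ℓ ≤ Real.exp (40000 * ℓ) := by
      calc Real.exp (((10 : ℕ) : ℝ) * (384 * (8 * ℓ) + 9)) * ℓ
          ≤ Real.exp (((10 : ℕ) : ℝ) * (384 * (8 * ℓ) + 9)) * Real.exp ℓ :=
            mul_le_mul_of_nonneg_left (hexp1 ℓ) (Real.exp_pos _).le
        _ = Real.exp (((10 : ℕ) : ℝ) * (384 * (8 * ℓ) + 9) + ℓ) := by rw [Real.exp_add]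
        _ ≤ Real.exp (40000 * ℓ) := by
            apply Real.exp_le_exp.2
            push_cast
            linarith
    calc Real.exp (((10 : ℕ) : ℝ) * (384 * (8 * ℓ) + 9)) * D * ℓ
        = D * (Real.exp (((10 : ℕ) : ℝ) * (384 * (8 * ℓ) + 9)) * ℓ) := by ring
      _ ≤ D * Real.exp (40000 * ℓ) := mul_le_mul_of_nonneg_left h1 hDr.le
  have hUpos : (0 : ℝ) < (Fintype.card U : ℝ) := lt_of_lt_of_le hn'pos hn'U
  -- the high degree vertices
  obtain ⟨S, hS⟩ : ∃ S, S = A.filter (fun w => 8 * ℓ * (Fintype.card U : ℝ) / D <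
    ((nb G w ∩ A).card : ℝ)) := ⟨_, rfl⟩
  have hSA : S ⊆ A := by rw [hS]; exact Finset.filter_subset _ _
  have hSc : (S.card : ℝ) ≤ 1 / 4 * D := by
    have h1 := markov_deg G A (x := 8 * ℓ * (Fintype.card U : ℝ) / D)
    rw [← hS] at h1
    have h2 : (S.card : ℝ) * (8 * ℓ * (Fintype.card U : ℝ) / D) ≤
        (1 / 4 * D) * (8 * ℓ * (Fintype.card U : ℝ) / D) := by
      have h3 : (1 / 4 * (D : ℝ)) * (8 * ℓ * (Fintype.card U : ℝ) / D) =
          2 * (ℓ * (Fintype.card U : ℝ)) := by field_simp; ring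
      rw [h3]
      have h4 : ℓ * (n' : ℝ) ≤ ℓ * (Fintype.card U : ℝ) := mul_le_mul_of_nonneg_left hn'U hℓ0.le
      linarith
    exact le_of_mul_le_mul_right h2 (by positivity)
  apply lemmaG (C := 8 * ℓ) (K := 2 * ℓ) (by linarith) (by linarith) (by linarith) G T D (nb T x0)
    A S hT hD hI hDdef.symm hD6 hNbig hSA hSc hA2
  intro w hw
  rw [Finset.mem_sdiff, hS, Finset.mem_filter] at hw
  have h1 : ¬ 8 * ℓ * (Fintype.card U : ℝ) / D < ((nb G w ∩ A).card : ℝ) :=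
    fun h => hw.2 ⟨hw.1, h⟩
  push Not at h1
  rwa [le_div_iff₀ hDr] at h1

end Pool.Agent.H37.Mart
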