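import Pool.Agent.H37.Mart.PhaseStep

set_option autoImplicit false
set_option linter.unusedSectionVars false

/-!
First phase: the vertices of `H` are placed in `I0`.
-/

namespace Pool.Agent.H37.Mart

open Finset
open Pool.Agent.H37.Hard (nb mem_nb)

variable {W U : Type*} [Fintype W] [Fintype U] [DecidableEq W] [DecidableEq U]
variable {G : SimpleGraph W} {T : SimpleGraph U} {M H : Finset W} {V0 R I0 : Finset U}
  {Y X0 hm cap a0 dm : ℝ}

/-- bound of the energy of two weights -/
lemma en_le {a b : U → ℝ} (ha : ∀ u, 0 ≤ a u) {A : ℝ}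
    (h : ∀ u, ∑ v, b v * ad T u v ≤ A) : en T a b ≤ (∑ u, a u) * A := by
  unfold en
  rw [Finset.sum_mul]
  apply Finset.sum_le_sum; intro u _
  have h1 : ∑ v, ad T u v * (a u * b v) = a u * ∑ v, b v * ad T u v := by
    rw [Finset.mul_sum]
    exact Finset.sum_congr rfl (fun v _ => by ring)
  rw [h1]
  exact mul_le_mul_of_nonneg_left (h u) (ha u)

lemma Setup.init_pot (s : Setup G T M H V0 R I0 Y X0 hm cap a0 dm) {x : W × Bool}
    (hx : x.1 ∈ M) : pot G T Y X0 (base M V0 R) (fun _ _ => 0) M x = 0 := by
  have hY := s.Y_pos
  have h1 : fut G T Y (base M V0 R) (fun _ _ => 0) M x ≤ dm * a0 := by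
    unfold fut
    calc ∑ j ∈ nb G x.1 ∩ M, en T (lv Y (fun _ => 0) (base M V0 R x))
          (lv Y (fun _ => 0) (base M V0 R (j, false)))
        ≤ ∑ j ∈ nb G x.1 ∩ M, a0 := by
          apply Finset.sum_le_sum; intro j _
          have h2 : ∀ z : W × Bool, lv Y (fun _ => 0) (base M V0 R z) = base M V0 R z := by
            intro z; funext u; exact lv_of (by simpa using hY.le)
          rw [h2, h2]
          have h3 := en_le (T := T) (a := base M V0 R x) (b := base M V0 R (j, false))
            (base_nonneg x) (A := a0) (fun u => s.sum_base_ad (j, false) u (Or.inl rfl))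
          rw [s.sum_base hx, one_mul] at h3
          exact h3
      _ = ((nb G x.1 ∩ M).card : ℝ) * a0 := by rw [Finset.sum_const, nsmul_eq_mul]
      _ ≤ dm * a0 := by
          apply mul_le_mul_of_nonneg_right _ s.a00
          refine le_trans ?_ (s.b7 x.1 hx)
          exact_mod_cast Finset.card_le_card
            (Finset.inter_subset_inter_left Finset.subset_union_right)
  have h2 : xp G T Y (base M V0 R) (fun _ _ => 0) M x - X0 ≤ 0 := by
    unfold xp
    simp only [mul_zero, Finset.sum_const_zero, zero_add]
    linarith [s.b8]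
  unfold pot
  rw [max_eq_left h2, s.sum_base hx]
  norm_num

theorem phaseH (s : Setup G T M H V0 R I0 Y X0 hm cap a0 dm) (Hp : Finset W) : Hp ⊆ H →
    ∃ (ψ : W → U) (m : W × Bool → U → ℝ), Set.InjOn ψ Hp ∧ (∀ q ∈ Hp, ψ q ∈ I0) ∧
      Inv G T M V0 R Y hm Hp Hp ψ m (fun _ _ => 0) ∧
      ∑ x ∈ M ×ˢ (Finset.univ : Finset Bool), pot G T Y X0 m (fun _ _ => 0) M x ≤
        ∑ z ∈ Hp, Bz G M Y (cap * a0) dm cap z := by
  have hY := s.Y_pos
  induction Hp using Finset.induction_on with
  | empty =>
    intro _
    obtain ⟨u0, _⟩ := s.hV0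
    refine ⟨fun _ => u0, base M V0 R, by simp, by simp, ?_, ?_⟩
    · refine ⟨fun x u => base_nonneg x u, ?_, fun _ _ => le_rfl, fun _ _ => by
        show (0 : ℝ) ≤ Y + 1 / 2
        linarith, by simp⟩
      intro x u
      simp
    · rw [Finset.sum_eq_zero]
      · simp
      · intro x hx
        exact s.init_pot (Finset.mem_product.1 hx).1
  | insert z Hp hz ih =>
    intro hsub
    have hzH : z ∈ H := hsub (Finset.mem_insert_self _ _)
    have hHp : Hp ⊆ H := (Finset.subset_insert _ _).trans hsub
    obtain ⟨ψ, m, hinj, hI0, inv, hpot⟩ := ih hHp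
    -- free positions
    obtain ⟨J, hJ⟩ : ∃ J, J = I0 \ Hp.image ψ := ⟨_, rfl⟩
    have hJI0 : J ⊆ I0 := by rw [hJ]; exact Finset.sdiff_subset
    have hJc : (I0.card : ℝ) - H.card ≤ J.card := by
      have h1 : I0.card ≤ J.card + (Hp.image ψ).card := by
        rw [hJ]
        have := Finset.le_card_sdiff (Hp.image ψ) I0
        omega
      have h2 : (Hp.image ψ).card ≤ H.card := Finset.card_image_le.trans (Finset.card_le_card hHp)
      have h3 : I0.card ≤ J.card + H.card := by omega
      have h4 : (I0.card : ℝ) ≤ J.card + H.card := by exact_mod_cast h3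
      linarith
    have hJpos : (0 : ℝ) < J.card := by
      have h1 : (H.card : ℝ) < I0.card := by exact_mod_cast s.b4
      linarith
    obtain ⟨p, hp⟩ : ∃ p : U → ℝ, p = fun i => if i ∈ J then 1 / (J.card : ℝ) else 0 := ⟨_, rfl⟩
    have hp0 : ∀ i, 0 ≤ p i := by
      intro i; rw [hp]; simp only; split_ifs <;> positivity
    have hp1 : ∑ i, p i = 1 := by
      rw [hp]; simp only
      rw [Finset.sum_ite_mem, Finset.univ_inter, Finset.sum_const, nsmul_eq_mul]
      field_simp
    have hpJ : ∀ i, p i ≠ 0 → i ∈ J := by
      intro i hi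
      by_contra hcon
      apply hi; rw [hp]; simp [hcon]
    have hhaz : ∀ u, haz T p u = ((nb T u ∩ J).card : ℝ) / J.card := by
      intro u
      have h1 := sum_ite_ad (T := T) J u (1 / (J.card : ℝ))
      unfold haz
      rw [hp]
      have h2 : ∀ i, (if i ∈ J then 1 / (J.card : ℝ) else 0) * ad T i u =
          (if i ∈ J then 1 / (J.card : ℝ) else 0) * ad T u i := by
        intro i; rw [ad_comm]
      rw [Finset.sum_congr rfl (fun i _ => h2 i), h1]
      ring
    have hhazV : ∀ u ∈ V0, haz T p u ≤ hm := by
      intro u hu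
      rw [hhaz, div_le_iff₀ hJpos]
      have h1 : ((nb T u ∩ J).card : ℝ) ≤ ((nb T u ∩ I0).card : ℝ) := by
        exact_mod_cast Finset.card_le_card (Finset.inter_subset_inter_left hJI0)
      calc ((nb T u ∩ J).card : ℝ) ≤ ((nb T u ∩ I0).card : ℝ) := h1
        _ ≤ hm * (I0.card - H.card) := s.b3 u hu
        _ ≤ hm * J.card := mul_le_mul_of_nonneg_left hJc s.hm0
    have hhazR : ∀ u ∈ R, haz T p u = 0 := by
      intro u hu
      rw [hhaz]
      have : nb T u ∩ J = ∅ := by
        rw [Finset.eq_empty_iff_forall_notMem]
        intro i hi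
        rw [Finset.mem_inter, mem_nb] at hi
        exact s.hI i (hJI0 hi.2) u hu hi.1.symm
      rw [this]; simp
    have hhazm : ∀ x u, m x u ≠ 0 → haz T p u ≤ hm := by
      intro x u hmu
      rcases (inv.m_ne hmu).2 with h | h
      · rw [hhazR u h.2]; exact s.hm0
      · exact hhazV u h.2
    have hok : ∀ x u, m x u = 0 ∨ haz T p u ≤ 1 / 2 := by
      intro x u
      by_cases h : m x u = 0
      · left; exact h
      · right; exact (hhazm x u h).trans s.hm1
    have hny : ny G T Y 0 p z (fun _ _ => (0 : ℝ)) = fun _ _ => 0 := by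
      funext x u
      unfold ny
      split_ifs <;> simp
    have hstep := sum_pot_step s inv hHp (p := p) (z := z) (η := 0) hp0 hp1 le_rfl zero_le_one
      (fun i hi => Or.inr (hJI0 (hpJ i hi))) hok (Q := M) (Q' := M) (Finset.Subset.refl _)
      (Act := M ×ˢ (Finset.univ : Finset Bool)) (Finset.Subset.refl _) (drop := fun _ => 0)
      (fun _ _ => le_rfl)
      (fun x _ => by
        have := pr_nonneg (G.Adj x.1 z)
        have := s.cap_pos
        have := s.a00
        positivity)
      (fun _ _ => by simp) (fun _ _ => by simp)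
    rw [hny] at hstep
    obtain ⟨i, hi, hle⟩ := exists_avg hp0 hp1 hstep
    have hiJ := hpJ i hi
    refine ⟨Function.update ψ z i, nm G T Y p z m (fun _ _ => 0) i, ?_, ?_, ?_, ?_⟩
    · intro a ha b hb hab
      rw [Finset.mem_coe, Finset.mem_insert] at ha hb
      have hiimg : i ∉ Hp.image ψ := by rw [hJ] at hiJ; exact (Finset.mem_sdiff.1 hiJ).2
      rcases ha with rfl | ha <;> rcases hb with rfl | hb
      · rfl
      · have hne : b ≠ a := fun h => hz (h ▸ hb)
        rw [Function.update_self, Function.update_of_ne hne] at hab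
        exact absurd (Finset.mem_image.2 ⟨b, hb, hab.symm⟩) hiimg
      · have hne : a ≠ b := fun h => hz (h ▸ ha)
        rw [Function.update_self, Function.update_of_ne hne] at hab
        exact absurd (Finset.mem_image.2 ⟨a, ha, hab⟩) hiimg
      · have hne : a ≠ z := fun h => hz (h ▸ ha)
        have hne' : b ≠ z := fun h => hz (h ▸ hb)
        rw [Function.update_of_ne hne, Function.update_of_ne hne'] at hab
        exact hinj ha hb hab
    · intro q hq
      rw [Finset.mem_insert] at hq
      rcases hq with rfl | hq
      · rw [Function.update_self]; exact hJI0 hiJ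
      · have hne : q ≠ z := fun h => hz (h ▸ hq)
        rw [Function.update_of_ne hne]; exact hI0 q hq
    · refine ⟨nm_nonneg inv.m0 hok i, ?_, fun _ _ => le_rfl, fun _ _ => by
        show (0 : ℝ) ≤ Y + 1 / 2
        linarith, ?_⟩
      · intro x u
        have hb0 := base_nonneg (M := M) (V0 := V0) (R := R) x u
        by_cases hmu : m x u = 0
        · have : nm G T Y p z m (fun _ _ => 0) i x u = 0 := by
            unfold nm; split_ifs
            · rw [hmu, zero_mul]
            · exact hmu
          rw [this]; positivity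
        · have hcmono : ((nb G x.1 ∩ Hp).card : ℝ) ≤ ((nb G x.1 ∩ insert z Hp).card : ℝ) := by
            exact_mod_cast Finset.card_le_card
              (Finset.inter_subset_inter_left (Finset.subset_insert _ _))
          have hm1 := inv.m1 x u
          unfold nm
          split_ifs with hc
          · have hcard : ((nb G x.1 ∩ insert z Hp).card : ℝ) = ((nb G x.1 ∩ Hp).card : ℝ) + 1 := by
              rw [Finset.inter_insert_of_mem (mem_nb.2 hc.1), Finset.card_insert_of_notMem]
              · push_cast; ring
              · intro h; exact hz (Finset.mem_inter.1 h).2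
            have hf := fac_le_exp (T := T) hp0 ((hhazm x u hmu).trans s.hm1) i
            have hf2 : Real.exp (2 * haz T p u) ≤ Real.exp (2 * hm) :=
              Real.exp_le_exp.2 (by linarith [hhazm x u hmu])
            have hfn := fac_nonneg (T := T) ((hhazm x u hmu).trans s.hm1) True i
            calc m x u * fac T p True i u
                ≤ (base M V0 R x u * Real.exp (2 * hm * ((nb G x.1 ∩ Hp).card : ℝ) + 2 * 0)) *
                  Real.exp (2 * hm) :=
                  mul_le_mul hm1 (hf.trans hf2) hfn (by positivity)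
              _ = base M V0 R x u * Real.exp (2 * hm * ((nb G x.1 ∩ insert z Hp).card : ℝ) +
                  2 * 0) := by
                  rw [mul_assoc, ← Real.exp_add, hcard]
                  congr 2; ring
          · refine hm1.trans ?_
            apply mul_le_mul_of_nonneg_left _ hb0
            apply Real.exp_le_exp.2
            have := mul_le_mul_of_nonneg_left hcmono (by linarith [s.hm0] : 0 ≤ 2 * hm)
            linarith
      · intro x u hyY hnu q hq hadj
        have hmu : m x u ≠ 0 := by
          intro h
          apply hnu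
          unfold nm; split_ifs
          · rw [h, zero_mul]
          · exact h
        rw [Finset.mem_insert] at hq
        rcases hq with rfl | hq
        · rw [Function.update_self]
          unfold nm at hnu
          rw [if_pos ⟨hadj, hyY⟩] at hnu
          exact fac_ne (right_ne_zero_of_mul hnu)
        · have hne : q ≠ z := fun h => hz (h ▸ hq)
          rw [Function.update_of_ne hne]
          exact inv.av x u hyY hmu q hq hadj
    · rw [Finset.sum_insert hz]
      linarith

end Pool.Agent.H37.Mart
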