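import Pool.Agent.H37.Mart.PhaseH

set_option autoImplicit false
set_option linter.unusedSectionVars false

/-!
Second phase: most vertices of `M` are placed in `V0`.
-/

namespace Pool.Agent.H37.Mart

open Finset
open Pool.Agent.H37.Hard (nb mem_nb)

variable {W U : Type*} [Fintype W] [Fintype U] [DecidableEq W] [DecidableEq U]
variable {G : SimpleGraph W} {T : SimpleGraph U} {M H : Finset W} {V0 R I0 : Finset U}
  {Y X0 hm cap a0 dm : ℝ}

lemma fut_mono {m y : W × Bool → U → ℝ} (hm0 : ∀ x u, 0 ≤ m x u) {Q Q' : Finset W} (h : Q' ⊆ Q)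
    (x : W × Bool) : fut G T Y m y Q' x ≤ fut G T Y m y Q x := by
  unfold fut
  apply Finset.sum_le_sum_of_subset_of_nonneg (Finset.inter_subset_inter_left h)
  intro j _ _
  exact en_nonneg (lv_nonneg (hm0 x)) (lv_nonneg (hm0 (j, false)))

lemma pot_mono {m y : W × Bool → U → ℝ} (hm0 : ∀ x u, 0 ≤ m x u) {Q Q' : Finset W} (h : Q' ⊆ Q)
    (x : W × Bool) : pot G T Y X0 m y Q' x ≤ pot G T Y X0 m y Q x := by
  unfold pot
  have h1 : xp G T Y m y Q' x - X0 ≤ xp G T Y m y Q x - X0 := by
    unfold xp
    have := fut_mono (G := G) (T := T) (Y := Y) (y := y) hm0 h x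
    linarith
  have h2 := pow_le_pow_left₀ (le_max_left 0 (xp G T Y m y Q' x - X0))
    (max_le_max (le_refl (0 : ℝ)) h1) 2
  linarith

lemma pot_nonneg {m y : W × Bool → U → ℝ} (Q : Finset W) (x : W × Bool) :
    0 ≤ pot G T Y X0 m y Q x := by
  unfold pot
  positivity

/-- the active holders -/
def act (M Q : Finset W) : Finset (W × Bool) := M ×ˢ {true} ∪ Q ×ˢ {false}

lemma mem_act {M Q : Finset W} {x : W × Bool} :
    x ∈ act M Q ↔ (x.1 ∈ M ∧ x.2 = true) ∨ (x.1 ∈ Q ∧ x.2 = false) := by
  unfold act
  rw [Finset.mem_union, Finset.mem_product, Finset.mem_product, Finset.mem_singleton,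
    Finset.mem_singleton]

lemma act_subset {M Q : Finset W} (h : Q ⊆ M) : act M Q ⊆ M ×ˢ (Finset.univ : Finset Bool) := by
  intro x hx
  rw [mem_act] at hx
  rw [Finset.mem_product]
  rcases hx with hx | hx
  · exact ⟨hx.1, Finset.mem_univ _⟩
  · exact ⟨h hx.1, Finset.mem_univ _⟩

lemma act_mono {M Q Q' : Finset W} (h : Q' ⊆ Q) : act M Q' ⊆ act M Q := by
  intro x hx
  rw [mem_act] at hx ⊢
  rcases hx with hx | hx
  · exact Or.inl hx
  · exact Or.inr ⟨h hx.1, hx.2⟩

lemma sum_act {M Q : Finset W} {z : W} (hz : z ∈ Q) (f : W × Bool → ℝ) :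
    ∑ x ∈ act M Q, f x = ∑ x ∈ act M (Q.erase z), f x + f (z, false) := by
  have h1 : act M Q = insert (z, false) (act M (Q.erase z)) := by
    ext x
    rw [Finset.mem_insert, mem_act, mem_act]
    constructor
    · rintro (h | h)
      · exact Or.inr (Or.inl h)
      · by_cases hx : x.1 = z
        · left
          exact Prod.ext hx h.2
        · right; right
          exact ⟨Finset.mem_erase.2 ⟨hx, h.1⟩, h.2⟩
    · rintro (h | h | h)
      · right; rw [h]; exact ⟨hz, rfl⟩
      · exact Or.inl h
      · exact Or.inr ⟨Finset.mem_of_mem_erase h.1, h.2⟩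
  have h2 : (z, false) ∉ act M (Q.erase z) := by
    rw [mem_act]
    rintro (h | h)
    · exact absurd h.2 (by simp)
    · exact (Finset.notMem_erase z Q) h.1
  rw [h1, Finset.sum_insert h2]
  ring

/-- total mass bound -/
lemma Inv.mass_le (s : Setup G T M H V0 R I0 Y X0 hm cap a0 dm) {Hp Pl : Finset W} {ψ : W → U}
    {m y : W × Bool → U → ℝ} (inv : Inv G T M V0 R Y hm Hp Pl ψ m y) (hHp : Hp ⊆ H)
    {x : W × Bool} (hx : x.1 ∈ M) : ∑ u, lv Y (y x) (m x) u ≤ cap := by
  calc ∑ u, lv Y (y x) (m x) u ≤ ∑ u, base M V0 R x u * cap :=
        Finset.sum_le_sum (fun u _ => (lv_le (inv.m0 x) u).trans (inv.cap_le s hHp x u))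
    _ = cap := by rw [← Finset.sum_mul, s.sum_base hx, one_mul]

/-- energy bound -/
lemma Inv.en_bound (s : Setup G T M H V0 R I0 Y X0 hm cap a0 dm) {Hp Pl : Finset W} {ψ : W → U}
    {m y : W × Bool → U → ℝ} (inv : Inv G T M V0 R Y hm Hp Pl ψ m y) (hHp : Hp ⊆ H)
    {x : W × Bool} (hx : x.1 ∈ M) (z : W) :
    en T (lv Y (y x) (m x)) (lv Y (y (z, false)) (m (z, false))) ≤ cap * (cap * a0) := by
  have h1 := en_le (T := T) (a := lv Y (y x) (m x)) (b := lv Y (y (z, false)) (m (z, false)))
    (lv_nonneg (inv.m0 x)) (A := cap * a0) (fun u => by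
      refine le_trans ?_ (inv.sum_ad_le s hHp (z, false) u (Or.inl rfl))
      exact Finset.sum_le_sum (fun v _ => mul_le_mul_of_nonneg_right (lv_le (inv.m0 (z, false)) v)
        (ad_nonneg T u v)))
  refine h1.trans ?_
  exact mul_le_mul_of_nonneg_right (inv.mass_le s hHp hx) (mul_nonneg s.cap_pos.le s.a00)

/-- invariants after one step, without adding the placed vertex -/
lemma Inv.step {Hp Pl : Finset W} {ψ : W → U}
    {m y : W × Bool → U → ℝ} (inv : Inv G T M V0 R Y hm Hp Pl ψ m y) {p : U → ℝ}
    (hp0 : ∀ i, 0 ≤ p i) (hhaz : ∀ u, haz T p u ≤ 1 / 2) (z : W) (i : U) :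
    Inv G T M V0 R Y hm Hp Pl ψ (nm G T Y p z m y i) (ny G T Y 1 p z y) := by
  have hok : ∀ x u, m x u = 0 ∨ haz T p u ≤ 1 / 2 := fun x u => Or.inr (hhaz u)
  refine ⟨nm_nonneg inv.m0 hok i, ?_, ?_, ?_, ?_⟩
  · intro x u
    have hm1 := inv.m1 x u
    have hb0 := base_nonneg (M := M) (V0 := V0) (R := R) x u
    by_cases hc : G.Adj x.1 z ∧ y x u ≤ Y
    · have e1 : nm G T Y p z m y i x u = m x u * fac T p True i u := by
        unfold nm; rw [if_pos hc]
      have e2 : ny G T Y 1 p z y x u = y x u + 1 * haz T p u := by
        unfold ny; rw [if_pos hc]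
      rw [e1, e2]
      have hf := fac_le_exp (T := T) hp0 (hhaz u) i
      have hfn := fac_nonneg (T := T) (hhaz u) True i
      calc m x u * fac T p True i u
          ≤ (base M V0 R x u * Real.exp (2 * hm * ((nb G x.1 ∩ Hp).card : ℝ) + 2 * y x u)) *
            Real.exp (2 * haz T p u) := mul_le_mul hm1 hf hfn (by positivity)
        _ = base M V0 R x u * Real.exp (2 * hm * ((nb G x.1 ∩ Hp).card : ℝ) +
            2 * (y x u + 1 * haz T p u)) := by
            rw [mul_assoc, ← Real.exp_add]
            congr 2; ring
    · have e1 : nm G T Y p z m y i x u = m x u := by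
        unfold nm; rw [if_neg hc]
      have e2 : ny G T Y 1 p z y x u = y x u := by
        unfold ny; rw [if_neg hc]
      rw [e1, e2]
      exact hm1
  · intro x u
    exact (inv.y0 x u).trans (le_ny hp0 zero_le_one x u)
  · intro x u
    unfold ny
    split_ifs with hc
    · have := hhaz u
      linarith [hc.2]
    · exact inv.y1 x u
  · intro x u hyY hnu q hq hadj
    have hmu : m x u ≠ 0 := by
      intro h
      apply hnu
      unfold nm; split_ifs
      · rw [h, zero_mul]
      · exact h
    exact inv.av x u ((le_ny hp0 zero_le_one x u).trans hyY) hmu q hq hadj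

theorem phaseM (s : Setup G T M H V0 R I0 Y X0 hm cap a0 dm) (Qp : Finset W) : Qp ⊆ M →
    ∃ (ψ : W → U) (m y : W × Bool → U → ℝ) (PM : Finset W), PM ⊆ Qp ∧
      Set.InjOn ψ H ∧ (∀ q ∈ H, ψ q ∈ I0) ∧ Set.InjOn ψ PM ∧ (∀ w ∈ PM, ψ w ∈ V0) ∧
      (∀ w ∈ PM, ∀ q ∈ H ∪ PM, G.Adj w q → ¬ T.Adj (ψ w) (ψ q)) ∧
      Inv G T M V0 R Y hm H (H ∪ PM) ψ m y ∧
      ((Qp \ PM).card : ℝ) + ∑ x ∈ act M (M \ Qp), pot G T Y X0 m y (M \ Qp) x ≤
        ∑ z ∈ H, Bz G M Y (cap * a0) dm cap z +
          ∑ z ∈ Qp, (Bz G M Y (cap * a0) dm cap z + M.card * (2 * cap / V0.card)) := by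
  induction Qp using Finset.induction_on with
  | empty =>
    intro _
    obtain ⟨ψ, m, hinj, hI0, inv, hpot⟩ := phaseH s H (Finset.Subset.refl _)
    refine ⟨ψ, m, fun _ _ => 0, ∅, Finset.Subset.refl _, hinj, hI0, by simp, by simp, by simp,
      by simpa using inv, ?_⟩
    simp only [Finset.sdiff_empty, Finset.card_empty, Nat.cast_zero, zero_add,
      Finset.sum_empty, add_zero]
    refine le_trans ?_ hpot
    exact Finset.sum_le_sum_of_subset_of_nonneg (act_subset (Finset.Subset.refl _))
      (fun x _ _ => pot_nonneg M x)
  | insert z Qp hz ih =>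
    intro hsub
    have hzM : z ∈ M := hsub (Finset.mem_insert_self _ _)
    have hQpM : Qp ⊆ M := (Finset.subset_insert _ _).trans hsub
    obtain ⟨ψ, m, y, PM, hPM, hinjH, hI0, hinj, hV0, hcf, inv, hpot⟩ := ih hQpM
    obtain ⟨Q, hQ⟩ : ∃ Q, Q = M \ Qp := ⟨_, rfl⟩
    have hzQ : z ∈ Q := by rw [hQ]; exact Finset.mem_sdiff.2 ⟨hzM, hz⟩
    have hQ' : M \ insert z Qp = Q.erase z := by
      rw [hQ]
      ext w
      simp only [Finset.mem_sdiff, Finset.mem_insert, Finset.mem_erase]
      tauto
    have hQM : Q ⊆ M := by rw [hQ]; exact Finset.sdiff_subset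
    have hzH : z ∉ H := fun h => Finset.disjoint_left.1 s.hMH hzM h
    have hzPM : z ∉ PM := fun h => hz (hPM h)
    have hB0 : 0 ≤ Bz G M Y (cap * a0) dm cap z := by
      unfold Bz
      apply Finset.sum_nonneg; intro x _
      have := pr_nonneg (G.Adj x.1 z)
      positivity
    have hpm0 : 0 ≤ (M.card : ℝ) * (2 * cap / V0.card) := by
      have := s.cap_pos
      positivity
    rw [← hQ] at hpot
    rw [hQ']
    rw [sum_act hzQ] at hpot
    have hmono : ∑ x ∈ act M (Q.erase z), pot G T Y X0 m y (Q.erase z) x ≤
        ∑ x ∈ act M (Q.erase z), pot G T Y X0 m y Q x :=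
      Finset.sum_le_sum (fun x _ => pot_mono inv.m0 (Finset.erase_subset _ _) x)
    have hlost : ((insert z Qp \ PM).card : ℝ) = ((Qp \ PM).card : ℝ) + 1 := by
      have h1 : insert z Qp \ PM = insert z (Qp \ PM) := by
        ext w
        simp only [Finset.mem_sdiff, Finset.mem_insert]
        constructor
        · rintro ⟨h | h, h2⟩
          · exact Or.inl h
          · exact Or.inr ⟨h, h2⟩
        · rintro (h | h)
          · rw [h]; exact ⟨Or.inl rfl, hzPM⟩
          · exact ⟨Or.inr h.1, h.2⟩
      rw [h1, Finset.card_insert_of_notMem (fun h => hz (Finset.mem_sdiff.1 h).1)]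
      push_cast; ring
    by_cases hlarge : 1 ≤ pot G T Y X0 m y Q (z, false)
    · -- the vertex is skipped
      refine ⟨ψ, m, y, PM, hPM.trans (Finset.subset_insert _ _), hinjH, hI0, hinj, hV0, hcf, inv,
        ?_⟩
      rw [hlost, Finset.sum_insert hz]
      linarith
    · push Not at hlarge
      have hmass := inv.live_mass s hlarge
      obtain ⟨S, hS⟩ : ∃ S, S = ∑ u, lv Y (y (z, false)) (m (z, false)) u := ⟨_, rfl⟩
      rw [← hS] at hmass
      have hSpos : 0 < S := by linarith
      obtain ⟨p, hp⟩ : ∃ p : U → ℝ, p = fun i => lv Y (y (z, false)) (m (z, false)) i / S :=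
        ⟨_, rfl⟩
      have hpi : ∀ i, p i = lv Y (y (z, false)) (m (z, false)) i / S := fun i => by rw [hp]
      have hlv0 := lv_nonneg (Y := Y) (y := y (z, false)) (inv.m0 (z, false))
      have hp0 : ∀ i, 0 ≤ p i := fun i => by rw [hpi]; exact div_nonneg (hlv0 i) hSpos.le
      have hp1 : ∑ i, p i = 1 := by
        rw [hp]; simp only
        rw [← Finset.sum_div, ← hS]
        exact div_self hSpos.ne'
      have hp2 : ∀ i, p i ≤ 2 * m (z, false) i := by
        intro i
        rw [hpi, div_le_iff₀ hSpos]
        have h1 := lv_le (Y := Y) (y := y (z, false)) (inv.m0 (z, false)) i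
        have h2 := inv.m0 (z, false) i
        nlinarith
      have hpne : ∀ i, p i ≠ 0 → y (z, false) i ≤ Y ∧ m (z, false) i ≠ 0 := by
        intro i hi
        apply lv_ne
        intro h
        apply hi
        rw [hpi, h, zero_div]
      have hpV0 : ∀ i, p i ≠ 0 → i ∈ V0 := by
        intro i hi
        rcases (inv.m_ne (hpne i hi).2).2 with h | h
        · exact absurd h.1 (by simp)
        · exact h.2
      have hhaz : ∀ u, haz T p u ≤ 1 / 2 := by
        intro u
        calc haz T p u = ∑ i, p i * ad T u i := by
              unfold haz; exact Finset.sum_congr rfl (fun i _ => by rw [ad_comm])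
          _ ≤ ∑ i, 2 * (m (z, false) i * ad T u i) := by
              apply Finset.sum_le_sum; intro i _
              have := mul_le_mul_of_nonneg_right (hp2 i) (ad_nonneg T u i)
              linarith
          _ = 2 * ∑ i, m (z, false) i * ad T u i := by rw [Finset.mul_sum]
          _ ≤ 2 * (cap * a0) := by
              have := inv.sum_ad_le s (Finset.Subset.refl _) (z, false) u (Or.inl rfl)
              linarith
          _ ≤ 1 / 2 := by linarith [s.b6]
      have hok : ∀ x u, m x u = 0 ∨ haz T p u ≤ 1 / 2 := fun x u => Or.inr (hhaz u)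
      classical
      obtain ⟨drop, hdropdef⟩ : ∃ drop : W × Bool → ℝ, drop = fun x => if G.Adj x.1 z then
        en T (lv Y (y x) (m x)) (lv Y (y (z, false)) (m (z, false))) else 0 := ⟨_, rfl⟩
      have hen0 : ∀ x, 0 ≤ en T (lv Y (y x) (m x)) (lv Y (y (z, false)) (m (z, false))) :=
        fun x => en_nonneg (lv_nonneg (inv.m0 x)) hlv0
      have hstep := sum_pot_step s inv (Finset.Subset.refl _) (p := p) (z := z) (η := 1) hp0 hp1
        zero_le_one le_rfl (fun i hi => Or.inl (hpV0 i hi)) hok (Q := Q) (Q' := Q.erase z)
        ((Finset.erase_subset _ _).trans hQM)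
        (Act := act M (Q.erase z)) (act_subset ((Finset.erase_subset _ _).trans hQM))
        (drop := drop)
        (fun x _ => by
          rw [hdropdef]; simp only
          split_ifs
          · exact hen0 x
          · exact le_rfl)
        (fun x hx => by
          have hxM : x.1 ∈ M :=
            (Finset.mem_product.1 (act_subset ((Finset.erase_subset _ _).trans hQM) hx)).1
          rw [hdropdef]; simp only
          by_cases hadj : G.Adj x.1 z
          · rw [if_pos hadj, pr_of hadj, one_mul]
            exact inv.en_bound s (Finset.Subset.refl _) hxM z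
          · rw [if_neg hadj, pr_not hadj, zero_mul])
        (fun x _ => by
          rw [hdropdef]; simp only
          unfold fut
          by_cases hadj : G.Adj x.1 z
          · rw [if_pos hadj]
            have h1 : nb G x.1 ∩ Q = insert z (nb G x.1 ∩ Q.erase z) := by
              ext w
              simp only [Finset.mem_inter, Finset.mem_insert, Finset.mem_erase]
              constructor
              · rintro ⟨h1, h2⟩
                by_cases hw : w = z
                · exact Or.inl hw
                · exact Or.inr ⟨h1, hw, h2⟩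
              · rintro (h | h)
                · rw [h]; exact ⟨mem_nb.2 hadj, hzQ⟩
                · exact ⟨h.1, h.2.2⟩
            have h2 : z ∉ nb G x.1 ∩ Q.erase z := by
              intro h
              exact Finset.notMem_erase z Q (Finset.mem_inter.1 h).2
            rw [h1, Finset.sum_insert h2]
            ring
          · rw [if_neg hadj, add_zero]
            have h1 : nb G x.1 ∩ Q = nb G x.1 ∩ Q.erase z := by
              ext w
              simp only [Finset.mem_inter, Finset.mem_erase]
              constructor
              · rintro ⟨h1, h2⟩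
                refine ⟨h1, ?_, h2⟩
                rintro rfl
                exact hadj (mem_nb.1 h1)
              · rintro ⟨h1, h2⟩
                exact ⟨h1, h2.2⟩
            rw [h1])
        (fun x _ => by
          rw [hdropdef]; simp only
          by_cases hadj : G.Adj x.1 z
          · rw [if_pos hadj, pr_of hadj, one_mul, one_mul]
            have h1 : ∑ u, lv Y (y x) (m x) u * haz T p u =
                en T (lv Y (y x) (m x)) (lv Y (y (z, false)) (m (z, false))) / S := by
              unfold en haz
              rw [Finset.sum_div]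
              apply Finset.sum_congr rfl; intro u _
              rw [Finset.mul_sum, Finset.sum_div]
              apply Finset.sum_congr rfl; intro i _
              rw [hpi, ad_comm]; ring
            rw [h1, div_le_iff₀ hSpos]
            have h2 := hen0 x
            nlinarith
          · rw [if_neg hadj, pr_not hadj, zero_mul, mul_zero])
      -- averaging
      have hcoll : ∑ i, p i * (if i ∈ PM.image ψ then (1 : ℝ) else 0) ≤
          M.card * (2 * cap / V0.card) := by
        have hV0c : (0 : ℝ) < V0.card := by
          have := Finset.card_pos.2 s.hV0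
          positivity
        have h1 : ∀ i, p i ≤ 2 * cap / V0.card := by
          intro i
          by_cases hi : p i = 0
          · rw [hi]
            have := s.cap_pos
            positivity
          · have h2 := inv.cap_le s (Finset.Subset.refl _) (z, false) i
            have h3 : base M V0 R (z, false) i ≤ 1 / (V0.card : ℝ) := by
              unfold base
              simp only [hzM, if_true, Bool.false_eq_true, if_false]
              split_ifs
              · exact le_rfl
              · positivity
            have h4 := mul_le_mul_of_nonneg_right h3 s.cap_pos.le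
            have h5 := hp2 i
            have h6 : 2 * cap / (V0.card : ℝ) = 2 * (1 / (V0.card : ℝ) * cap) := by ring
            rw [h6]; linarith
        have h2 : ∑ i, p i * (if i ∈ PM.image ψ then (1 : ℝ) else 0) ≤
            ∑ i, (if i ∈ PM.image ψ then 2 * cap / (V0.card : ℝ) else 0) := by
          apply Finset.sum_le_sum; intro i _
          split_ifs
          · rw [mul_one]; exact h1 i
          · rw [mul_zero]
        refine h2.trans ?_
        rw [Finset.sum_ite_mem, Finset.univ_inter, Finset.sum_const, nsmul_eq_mul]
        have h3 : ((PM.image ψ).card : ℝ) ≤ M.card := by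
          exact_mod_cast Finset.card_image_le.trans (Finset.card_le_card (hPM.trans hQpM))
        apply mul_le_mul_of_nonneg_right h3
        have := s.cap_pos
        positivity
      obtain ⟨i, hi, hle⟩ := exists_avg (p := p)
        (F := fun i => (if i ∈ PM.image ψ then (1 : ℝ) else 0) +
          ∑ x ∈ act M (Q.erase z), pot G T Y X0 (nm G T Y p z m y i) (ny G T Y 1 p z y)
            (Q.erase z) x)
        (K := M.card * (2 * cap / V0.card) + (∑ x ∈ act M (Q.erase z), pot G T Y X0 m y Q x +
          Bz G M Y (cap * a0) dm cap z)) hp0 hp1 (by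
            simp only [mul_add]
            rw [Finset.sum_add_distrib]
            linarith)
      have hzfpot := pot_nonneg (G := G) (T := T) (Y := Y) (X0 := X0) (m := m) (y := y) Q
        (z, false)
      have hinv' := inv.step hp0 hhaz z i
      by_cases hcol : i ∈ PM.image ψ
      · -- collision, the vertex is lost
        simp only [hcol, if_true] at hle
        refine ⟨ψ, nm G T Y p z m y i, ny G T Y 1 p z y, PM,
          hPM.trans (Finset.subset_insert _ _), hinjH, hI0, hinj, hV0, hcf, hinv', ?_⟩
        rw [hlost, Finset.sum_insert hz]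
        linarith
      · simp only [hcol, if_false, zero_add] at hle
        have hupH : ∀ q ∈ H, Function.update ψ z i q = ψ q := by
          intro q hq
          have hne : q ≠ z := fun h => hzH (h ▸ hq)
          rw [Function.update_of_ne hne]
        have hupP : ∀ q ∈ PM, Function.update ψ z i q = ψ q := by
          intro q hq
          have hne : q ≠ z := fun h => hzPM (h ▸ hq)
          rw [Function.update_of_ne hne]
        have hupHP : ∀ q ∈ H ∪ PM, Function.update ψ z i q = ψ q := by
          intro q hq
          rcases Finset.mem_union.1 hq with h | h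
          · exact hupH q h
          · exact hupP q h
        have hzi : ∀ q ∈ H ∪ PM, G.Adj z q → ¬ T.Adj (ψ q) i := fun q hq hadj =>
          inv.av (z, false) i (hpne i hi).1 (hpne i hi).2 q hq hadj
        refine ⟨Function.update ψ z i, nm G T Y p z m y i, ny G T Y 1 p z y, insert z PM,
          Finset.insert_subset_insert _ hPM, ?_, ?_, ?_, ?_, ?_, ?_, ?_⟩
        · intro a ha b hb hab
          rw [hupH a ha, hupH b hb] at hab
          exact hinjH ha hb hab
        · intro q hq
          rw [hupH q hq]; exact hI0 q hq
        · intro a ha b hb hab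
          rw [Finset.mem_coe, Finset.mem_insert] at ha hb
          rcases ha with rfl | ha <;> rcases hb with rfl | hb
          · rfl
          · rw [Function.update_self, hupP b hb] at hab
            exact absurd (Finset.mem_image.2 ⟨b, hb, hab.symm⟩) hcol
          · rw [Function.update_self, hupP a ha] at hab
            exact absurd (Finset.mem_image.2 ⟨a, ha, hab⟩) hcol
          · rw [hupP a ha, hupP b hb] at hab
            exact hinj ha hb hab
        · intro w hw
          rw [Finset.mem_insert] at hw
          rcases hw with rfl | hw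
          · rw [Function.update_self]; exact hpV0 i hi
          · rw [hupP w hw]; exact hV0 w hw
        · intro w hw q hq hadj
          rw [Finset.mem_insert] at hw
          have hq' : q ∈ H ∪ PM ∨ q = z := by
            rw [Finset.mem_union, Finset.mem_insert] at hq
            rw [Finset.mem_union]
            tauto
          rcases hw with rfl | hw
          · rcases hq' with hq' | rfl
            · rw [Function.update_self, hupHP q hq']
              exact fun h => hzi q hq' hadj h.symm
            · exact absurd hadj (G.loopless.irrefl _)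
          · rcases hq' with hq' | rfl
            · rw [hupP w hw, hupHP q hq']
              exact hcf w hw q hq' hadj
            · rw [Function.update_self, hupP w hw]
              exact hzi w (Finset.mem_union_right _ hw) hadj.symm
        · refine ⟨hinv'.m0, hinv'.m1, hinv'.y0, hinv'.y1, ?_⟩
          intro x u hyY hnu q hq hadj
          have hq' : q ∈ H ∪ PM ∨ q = z := by
            rw [Finset.mem_union, Finset.mem_insert] at hq
            rw [Finset.mem_union]
            tauto
          rcases hq' with hq' | rfl
          · rw [hupHP q hq']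
            exact hinv'.av x u hyY hnu q hq' hadj
          · rw [Function.update_self]
            have hyY' : y x u ≤ Y := (le_ny hp0 zero_le_one x u).trans hyY
            unfold nm at hnu
            rw [if_pos ⟨hadj, hyY'⟩] at hnu
            exact fac_ne (right_ne_zero_of_mul hnu)
        · have hcount : ((insert z Qp \ insert z PM).card : ℝ) ≤ ((Qp \ PM).card : ℝ) := by
            have hsub' : insert z Qp \ insert z PM ⊆ Qp \ PM := by
              intro w hw
              rw [Finset.mem_sdiff, Finset.mem_insert, Finset.mem_insert] at hw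
              rw [Finset.mem_sdiff]
              tauto
            exact_mod_cast Finset.card_le_card hsub'
          rw [Finset.sum_insert hz]
          linarith

end Pool.Agent.H37.Mart
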