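import Pool.Agent.H37.Mart.Setup

set_option autoImplicit false
set_option linter.unusedSectionVars false

/-!
One step of the process: potential and invariants.
-/

namespace Pool.Agent.H37.Mart

open Finset
open Pool.Agent.H37.Hard (nb mem_nb)

variable {W U : Type*} [Fintype W] [Fintype U] [DecidableEq W] [DecidableEq U]

/-- step bound for a holder adjacent to the placed vertex -/
noncomputable def be1 (Y α dm cap : ℝ) : ℝ := 6 * α * (1 + Y) + 24 * α ^ 2 * dm + 4 * cap * α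

/-- budget of the placement of `z` -/
noncomputable def Bz (G : SimpleGraph W) (M : Finset W) (Y α dm cap : ℝ) (z : W) : ℝ :=
  ∑ x ∈ M ×ˢ (Finset.univ : Finset Bool),
    (pr (G.Adj x.1 z) * (576 * α ^ 2 + 2 * be1 Y α dm cap ^ 2) +
      2 * (24 * α ^ 2) ^ 2 * ((nb G x.1 ∩ M ∩ nb G z).card : ℝ) ^ 2)

variable {G : SimpleGraph W} {T : SimpleGraph U} {M H : Finset W} {V0 R I0 : Finset U}
  {Y X0 hm cap a0 dm : ℝ}

lemma pr_sq (c : Prop) : pr c ^ 2 = pr c := by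
  by_cases h : c
  · rw [pr_of h]; norm_num
  · rw [pr_not h]; norm_num

lemma sum_pot_step (s : Setup G T M H V0 R I0 Y X0 hm cap a0 dm) {Hp Pl : Finset W} {ψ : W → U}
    {m y : W × Bool → U → ℝ} (inv : Inv G T M V0 R Y hm Hp Pl ψ m y) (hHp : Hp ⊆ H)
    {p : U → ℝ} {z : W} {η : ℝ} (hp0 : ∀ i, 0 ≤ p i) (hp1 : ∑ i, p i = 1)
    (hη0 : 0 ≤ η) (hη1 : η ≤ 1) (hpos : ∀ i, p i ≠ 0 → i ∈ V0 ∨ i ∈ I0)
    (hok : ∀ x u, m x u = 0 ∨ haz T p u ≤ 1 / 2) {Q Q' : Finset W} (hQ' : Q' ⊆ M)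
    {Act : Finset (W × Bool)} (hAct : Act ⊆ M ×ˢ (Finset.univ : Finset Bool))
    {drop : W × Bool → ℝ} (hdrop0 : ∀ x ∈ Act, 0 ≤ drop x)
    (hdrop : ∀ x ∈ Act, drop x ≤ pr (G.Adj x.1 z) * (cap * (cap * a0)))
    (hfut : ∀ x ∈ Act, fut G T Y m y Q x = fut G T Y m y Q' x + drop x)
    (hdr : ∀ x ∈ Act, pr (G.Adj x.1 z) * (η * ∑ u, lv Y (y x) (m x) u * haz T p u) ≤
      4 * drop x) :
    ∑ i, p i * ∑ x ∈ Act, pot G T Y X0 (nm G T Y p z m y i) (ny G T Y η p z y) Q' x ≤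
      ∑ x ∈ Act, pot G T Y X0 m y Q x + Bz G M Y (cap * a0) dm cap z := by
  have hα : 0 ≤ cap * a0 := mul_nonneg s.cap_pos.le s.a00
  have hY := s.Y_pos
  have h1 : ∑ i, p i * ∑ x ∈ Act, pot G T Y X0 (nm G T Y p z m y i) (ny G T Y η p z y) Q' x =
      ∑ x ∈ Act, ∑ i, p i * pot G T Y X0 (nm G T Y p z m y i) (ny G T Y η p z y) Q' x := by
    simp only [Finset.mul_sum]
    exact Finset.sum_comm
  rw [h1]
  have hcard : ∀ x ∈ Act, ((nb G x.1 ∩ Q').card : ℝ) ≤ dm := by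
    intro x hx
    have hxM := (Finset.mem_product.1 (hAct hx)).1
    refine le_trans ?_ (s.b7 x.1 hxM)
    exact_mod_cast Finset.card_le_card (Finset.inter_subset_inter_left
      (hQ'.trans Finset.subset_union_right))
  have h2 : ∀ x ∈ Act, ∑ i, p i * pot G T Y X0 (nm G T Y p z m y i) (ny G T Y η p z y) Q' x ≤
      pot G T Y X0 m y Q x + (pr (G.Adj x.1 z) * (576 * (cap * a0) ^ 2 +
        2 * be1 Y (cap * a0) dm cap ^ 2) +
      2 * (24 * (cap * a0) ^ 2) ^ 2 * ((nb G x.1 ∩ M ∩ nb G z).card : ℝ) ^ 2) := by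
    intro x hx
    have h3 := pot_step (G := G) (T := T) (Y := Y) (p := p) (z := z) (η := η) (m := m) (y := y)
      s.hT hY.le hp0 hp1 hη0 hη1 inv.m0 inv.y0 hok (α := cap * a0) (cap := cap) (dm := dm)
      (X0 := X0) hα
      (fun x i hi => inv.sum_ad_le s hHp x i (Or.inr (hpos i hi)))
      (fun j u => inv.sum_ad_le s hHp (j, false) u (Or.inl rfl))
      (fun x j v hv => inv.sum_ad_le s hHp x v (by
        rcases (inv.m_ne hv).2 with h | h
        · exact absurd h.1 (by simp)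
        · exact Or.inr (Or.inl h.2)))
      Q Q' x (hdrop0 x hx) (hdrop x hx) (hfut x hx) (hdr x hx) (hcard x hx)
    refine h3.trans ?_
    have hc : (((nb G x.1 ∩ Q').filter (fun j => j ∈ nb G z)).card : ℝ) ≤
        ((nb G x.1 ∩ M ∩ nb G z).card : ℝ) := by
      have hsub : (nb G x.1 ∩ Q').filter (fun j => j ∈ nb G z) ⊆ nb G x.1 ∩ M ∩ nb G z := by
        intro j hj
        rw [Finset.mem_filter, Finset.mem_inter] at hj
        rw [Finset.mem_inter, Finset.mem_inter]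
        exact ⟨⟨hj.1.1, hQ' hj.1.2⟩, hj.2⟩
      exact_mod_cast Finset.card_le_card hsub
    have hfold : 6 * (cap * a0) * (1 + Y) + 24 * (cap * a0) ^ 2 * dm + 4 * cap * (cap * a0) =
      be1 Y (cap * a0) dm cap := rfl
    rw [hfold]
    have hb1 : 0 ≤ be1 Y (cap * a0) dm cap := by
      unfold be1
      have := s.dm0
      have := s.cap_pos
      positivity
    have hpr := pr_nonneg (G.Adj x.1 z)
    have hprs := pr_sq (G.Adj x.1 z)
    have hcn : (0 : ℝ) ≤ (((nb G x.1 ∩ Q').filter (fun j => j ∈ nb G z)).card : ℝ) := by positivity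
    have e1 : 16 * (pr (G.Adj x.1 z) * (6 * (cap * a0))) ^ 2 =
        pr (G.Adj x.1 z) * (576 * (cap * a0) ^ 2) := by
      have : (pr (G.Adj x.1 z) * (6 * (cap * a0))) ^ 2 =
        pr (G.Adj x.1 z) ^ 2 * (6 * (cap * a0)) ^ 2 := by ring
      rw [this, hprs]; ring
    have e2 : (pr (G.Adj x.1 z) * be1 Y (cap * a0) dm cap + 24 * (cap * a0) ^ 2 *
        (((nb G x.1 ∩ Q').filter (fun j => j ∈ nb G z)).card : ℝ)) ^ 2 ≤
        pr (G.Adj x.1 z) * (2 * be1 Y (cap * a0) dm cap ^ 2) +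
        2 * (24 * (cap * a0) ^ 2) ^ 2 * ((nb G x.1 ∩ M ∩ nb G z).card : ℝ) ^ 2 := by
      have k1 : ∀ a b : ℝ, (a + b) ^ 2 ≤ 2 * a ^ 2 + 2 * b ^ 2 := by
        intro a b; nlinarith [sq_nonneg (a - b)]
      refine (k1 _ _).trans ?_
      have k2 : (pr (G.Adj x.1 z) * be1 Y (cap * a0) dm cap) ^ 2 =
        pr (G.Adj x.1 z) * be1 Y (cap * a0) dm cap ^ 2 := by
        rw [mul_pow, hprs]
      have k3 : (24 * (cap * a0) ^ 2 *
          (((nb G x.1 ∩ Q').filter (fun j => j ∈ nb G z)).card : ℝ)) ^ 2 ≤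
          (24 * (cap * a0) ^ 2) ^ 2 * ((nb G x.1 ∩ M ∩ nb G z).card : ℝ) ^ 2 := by
        rw [mul_pow]
        apply mul_le_mul_of_nonneg_left _ (by positivity)
        exact pow_le_pow_left₀ hcn hc 2
      rw [k2]
      linarith
    rw [e1]
    linarith
  calc ∑ x ∈ Act, ∑ i, p i * pot G T Y X0 (nm G T Y p z m y i) (ny G T Y η p z y) Q' x
      ≤ ∑ x ∈ Act, (pot G T Y X0 m y Q x + (pr (G.Adj x.1 z) * (576 * (cap * a0) ^ 2 +
        2 * be1 Y (cap * a0) dm cap ^ 2) +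
      2 * (24 * (cap * a0) ^ 2) ^ 2 * ((nb G x.1 ∩ M ∩ nb G z).card : ℝ) ^ 2)) :=
        Finset.sum_le_sum h2
    _ = ∑ x ∈ Act, pot G T Y X0 m y Q x + ∑ x ∈ Act, (pr (G.Adj x.1 z) *
        (576 * (cap * a0) ^ 2 + 2 * be1 Y (cap * a0) dm cap ^ 2) +
      2 * (24 * (cap * a0) ^ 2) ^ 2 * ((nb G x.1 ∩ M ∩ nb G z).card : ℝ) ^ 2) := by
        rw [Finset.sum_add_distrib]
    _ ≤ ∑ x ∈ Act, pot G T Y X0 m y Q x + Bz G M Y (cap * a0) dm cap z := by
        have h4 : ∑ x ∈ Act, (pr (G.Adj x.1 z) *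
            (576 * (cap * a0) ^ 2 + 2 * be1 Y (cap * a0) dm cap ^ 2) +
          2 * (24 * (cap * a0) ^ 2) ^ 2 * ((nb G x.1 ∩ M ∩ nb G z).card : ℝ) ^ 2) ≤
            Bz G M Y (cap * a0) dm cap z := by
          unfold Bz
          apply Finset.sum_le_sum_of_subset_of_nonneg hAct
          intro x _ _
          have := pr_nonneg (G.Adj x.1 z)
          positivity
        linarith

lemma fac_le_exp {p : U → ℝ} (hp0 : ∀ i, 0 ≤ p i) {u : U} (hu : haz T p u ≤ 1 / 2) (i : U) :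
    fac T p True i u ≤ Real.exp (2 * haz T p u) := by
  rw [fac_of T p trivial, div_le_iff₀ (by linarith)]
  have h0 := haz_nonneg (T := T) hp0 u
  have h1 := Real.add_one_le_exp (2 * haz T p u)
  have h2 := ad_nonneg T i u
  nlinarith

lemma fac_ne {p : U → ℝ} {u i : U} (h : fac T p True i u ≠ 0) : ¬ T.Adj i u := by
  intro hadj
  apply h
  rw [fac_of T p trivial]
  rcases ad_cases T i u with ⟨_, ha⟩ | ⟨hn, _⟩
  · rw [ha]; simp
  · exact absurd hadj hn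

end Pool.Agent.H37.Mart
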