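import Pool.Agent.H37.Mart.State

set_option autoImplicit false
set_option linter.unusedSectionVars false

/-!
Parameters of the placement process, base weights and invariants.
-/

namespace Pool.Agent.H37.Mart

open Finset
open Pool.Agent.H37.Hard (nb mem_nb)

variable {W U : Type*} [Fintype W] [Fintype U] [DecidableEq W] [DecidableEq U]

/-- base weights -/
noncomputable def base (M : Finset W) (V0 R : Finset U) (x : W × Bool) (u : U) : ℝ :=
  if x.1 ∈ M then
    (if x.2 = true then (if u ∈ R then 1 / (R.card : ℝ) else 0)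
      else (if u ∈ V0 then 1 / (V0.card : ℝ) else 0))
  else 0

/-- parameters of the process -/
structure Setup (G : SimpleGraph W) (T : SimpleGraph U) (M H : Finset W) (V0 R I0 : Finset U)
    (Y X0 hm cap a0 dm : ℝ) : Prop where
  hT : ∀ u a b, T.Adj u a → T.Adj u b → ¬ T.Adj a b
  hMH : Disjoint M H
  hV0 : V0.Nonempty
  hR : R.Nonempty
  hI : ∀ i ∈ I0, ∀ r ∈ R, ¬ T.Adj i r
  b1 : ∀ u, ((nb T u ∩ V0).card : ℝ) ≤ a0 * V0.card
  b2 : ∀ v ∈ V0, ((nb T v ∩ R).card : ℝ) ≤ a0 * R.card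
  b3 : ∀ u ∈ V0, ((nb T u ∩ I0).card : ℝ) ≤ hm * (I0.card - H.card)
  b4 : H.card < I0.card
  hm0 : 0 ≤ hm
  hm1 : hm ≤ 1 / 2
  a00 : 0 ≤ a0
  dm0 : 0 ≤ dm
  b5 : Real.exp (2 * hm * dm + 2 * (Y + 1 / 2)) ≤ cap
  b6 : cap * a0 ≤ 1 / 4
  b7 : ∀ w ∈ M, ((nb G w ∩ (H ∪ M)).card : ℝ) ≤ dm
  b8 : 4 * (dm * a0) ≤ X0
  b9 : 4 * (X0 + 1) ≤ Y

section

variable {G : SimpleGraph W} {T : SimpleGraph U} {M H : Finset W} {V0 R I0 : Finset U}
  {Y X0 hm cap a0 dm : ℝ}

lemma base_nonneg (x : W × Bool) (u : U) : 0 ≤ base M V0 R x u := by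
  unfold base; split_ifs <;> positivity

lemma base_ne {x : W × Bool} {u : U} (h : base M V0 R x u ≠ 0) :
    x.1 ∈ M ∧ ((x.2 = true ∧ u ∈ R) ∨ (x.2 = false ∧ u ∈ V0)) := by
  unfold base at h
  split_ifs at h with h1 h2 h3 h4
  · exact ⟨h1, Or.inl ⟨h2, h3⟩⟩
  · exact absurd rfl h
  · refine ⟨h1, Or.inr ⟨by simpa using h2, h4⟩⟩
  · exact absurd rfl h
  · exact absurd rfl h

lemma Setup.X0_nonneg (s : Setup G T M H V0 R I0 Y X0 hm cap a0 dm) : 0 ≤ X0 := by
  have := s.b8
  have h1 := mul_nonneg s.dm0 s.a00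
  linarith

lemma Setup.Y_pos (s : Setup G T M H V0 R I0 Y X0 hm cap a0 dm) : 0 < Y := by
  have := s.b9
  have := s.X0_nonneg
  linarith

lemma Setup.cap_pos (s : Setup G T M H V0 R I0 Y X0 hm cap a0 dm) : 0 < cap :=
  lt_of_lt_of_le (Real.exp_pos _) s.b5

lemma Setup.sum_base (s : Setup G T M H V0 R I0 Y X0 hm cap a0 dm) {x : W × Bool} (hx : x.1 ∈ M) :
    ∑ u, base M V0 R x u = 1 := by
  unfold base
  simp only [hx, if_true]
  have hR0 : (R.card : ℝ) ≠ 0 := by
    have := Finset.card_pos.2 s.hR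
    positivity
  have hV00 : (V0.card : ℝ) ≠ 0 := by
    have := Finset.card_pos.2 s.hV0
    positivity
  by_cases h2 : x.2 = true
  · simp only [h2, if_true]
    rw [Finset.sum_ite_mem, Finset.univ_inter, Finset.sum_const, nsmul_eq_mul]
    field_simp
  · have h2' : (x.2 = true) = False := by simp [h2]
    simp only [h2', if_false]
    rw [Finset.sum_ite_mem, Finset.univ_inter, Finset.sum_const, nsmul_eq_mul]
    field_simp

lemma sum_ite_ad (S : Finset U) (i : U) (c : ℝ) :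
    ∑ u, (if u ∈ S then c else 0) * ad T i u = c * ((nb T i ∩ S).card : ℝ) := by
  classical
  have h1 : ∀ u, (if u ∈ S then c else 0) * ad T i u = if u ∈ nb T i ∩ S then c else 0 := by
    intro u
    by_cases hu : u ∈ S
    · rcases ad_cases T i u with ⟨h, ha⟩ | ⟨h, ha⟩
      · rw [ha, if_pos hu, if_pos (Finset.mem_inter.2 ⟨mem_nb.2 h, hu⟩), mul_one]
      · rw [ha, if_neg (fun hh => h (mem_nb.1 (Finset.mem_inter.1 hh).1)), mul_zero]
    · rw [if_neg hu, if_neg (fun hh => hu (Finset.mem_inter.1 hh).2), zero_mul]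
  rw [Finset.sum_congr rfl (fun u _ => h1 u), Finset.sum_ite_mem, Finset.univ_inter,
    Finset.sum_const, nsmul_eq_mul, mul_comm]

lemma Setup.sum_base_ad (s : Setup G T M H V0 R I0 Y X0 hm cap a0 dm) (x : W × Bool) (i : U)
    (hi : x.2 = false ∨ i ∈ V0 ∨ i ∈ I0) : ∑ u, base M V0 R x u * ad T i u ≤ a0 := by
  have hR0 : (0 : ℝ) < R.card := by
    have := Finset.card_pos.2 s.hR
    positivity
  have hV00 : (0 : ℝ) < V0.card := by
    have := Finset.card_pos.2 s.hV0
    positivity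
  by_cases hx : x.1 ∈ M
  · by_cases h2 : x.2 = true
    · have h3 : ∀ u, base M V0 R x u = if u ∈ R then 1 / (R.card : ℝ) else 0 := by
        intro u; unfold base; simp [hx, h2]
      rw [Finset.sum_congr rfl (fun u _ => by rw [h3 u]), sum_ite_ad]
      have h4 : ((nb T i ∩ R).card : ℝ) ≤ a0 * R.card := by
        rcases hi with h | h | h
        · rw [h] at h2; exact absurd h2 (by simp)
        · exact s.b2 i h
        · have : nb T i ∩ R = ∅ := by
            rw [Finset.eq_empty_iff_forall_notMem]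
            intro r hr
            rw [Finset.mem_inter, mem_nb] at hr
            exact s.hI i h r hr.2 hr.1
          rw [this]
          have := s.a00
          simp only [Finset.card_empty, Nat.cast_zero]
          positivity
      calc 1 / (R.card : ℝ) * ((nb T i ∩ R).card : ℝ) ≤ 1 / (R.card : ℝ) * (a0 * R.card) :=
            mul_le_mul_of_nonneg_left h4 (by positivity)
        _ = a0 := by field_simp
    · have h3 : ∀ u, base M V0 R x u = if u ∈ V0 then 1 / (V0.card : ℝ) else 0 := by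
        intro u; unfold base; simp [hx, h2]
      rw [Finset.sum_congr rfl (fun u _ => by rw [h3 u]), sum_ite_ad]
      calc 1 / (V0.card : ℝ) * ((nb T i ∩ V0).card : ℝ) ≤ 1 / (V0.card : ℝ) * (a0 * V0.card) :=
            mul_le_mul_of_nonneg_left (s.b1 i) (by positivity)
        _ = a0 := by field_simp
  · have h3 : ∀ u, base M V0 R x u = 0 := by intro u; unfold base; simp [hx]
    rw [Finset.sum_congr rfl (fun u _ => by rw [h3 u])]
    simpa using s.a00

/-- invariants of the process -/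
structure Inv (G : SimpleGraph W) (T : SimpleGraph U) (M : Finset W) (V0 R : Finset U)
    (Y hm : ℝ) (Hp Pl : Finset W) (ψ : W → U) (m y : W × Bool → U → ℝ) : Prop where
  m0 : ∀ x u, 0 ≤ m x u
  m1 : ∀ x u, m x u ≤ base M V0 R x u * Real.exp (2 * hm * ((nb G x.1 ∩ Hp).card : ℝ) + 2 * y x u)
  y0 : ∀ x u, 0 ≤ y x u
  y1 : ∀ x u, y x u ≤ Y + 1 / 2
  av : ∀ x u, y x u ≤ Y → m x u ≠ 0 → ∀ q ∈ Pl, G.Adj x.1 q → ¬ T.Adj (ψ q) u

lemma Inv.cap_le (s : Setup G T M H V0 R I0 Y X0 hm cap a0 dm) {Hp Pl : Finset W} {ψ : W → U}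
    {m y : W × Bool → U → ℝ} (inv : Inv G T M V0 R Y hm Hp Pl ψ m y) (hHp : Hp ⊆ H)
    (x : W × Bool) (u : U) : m x u ≤ base M V0 R x u * cap := by
  by_cases hb : base M V0 R x u = 0
  · have := inv.m1 x u
    rw [hb, zero_mul] at this
    rw [hb, zero_mul]; exact this
  · have hx := (base_ne hb).1
    refine (inv.m1 x u).trans ?_
    apply mul_le_mul_of_nonneg_left _ (base_nonneg x u)
    refine le_trans (Real.exp_le_exp.2 ?_) s.b5
    have h1 : ((nb G x.1 ∩ Hp).card : ℝ) ≤ dm := by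
      refine le_trans ?_ (s.b7 x.1 hx)
      exact_mod_cast Finset.card_le_card (Finset.inter_subset_inter_left
        (hHp.trans Finset.subset_union_left))
    have h2 := mul_le_mul_of_nonneg_left h1 (by linarith [s.hm0] : 0 ≤ 2 * hm)
    have h3 := inv.y1 x u
    linarith

lemma Inv.sum_ad_le (s : Setup G T M H V0 R I0 Y X0 hm cap a0 dm) {Hp Pl : Finset W} {ψ : W → U}
    {m y : W × Bool → U → ℝ} (inv : Inv G T M V0 R Y hm Hp Pl ψ m y) (hHp : Hp ⊆ H)
    (x : W × Bool) (i : U) (hi : x.2 = false ∨ i ∈ V0 ∨ i ∈ I0) :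
    ∑ u, m x u * ad T i u ≤ cap * a0 := by
  calc ∑ u, m x u * ad T i u ≤ ∑ u, cap * (base M V0 R x u * ad T i u) := by
        apply Finset.sum_le_sum; intro u _
        have h1 := inv.cap_le s hHp x u
        have h2 := mul_le_mul_of_nonneg_right h1 (ad_nonneg T i u)
        linarith
    _ = cap * ∑ u, base M V0 R x u * ad T i u := by rw [Finset.mul_sum]
    _ ≤ cap * a0 := mul_le_mul_of_nonneg_left (s.sum_base_ad x i hi) s.cap_pos.le

lemma Inv.m_ne {Hp Pl : Finset W} {ψ : W → U}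
    {m y : W × Bool → U → ℝ} (inv : Inv G T M V0 R Y hm Hp Pl ψ m y) {x : W × Bool} {u : U}
    (h : m x u ≠ 0) : x.1 ∈ M ∧ ((x.2 = true ∧ u ∈ R) ∨ (x.2 = false ∧ u ∈ V0)) := by
  apply base_ne (M := M) (V0 := V0) (R := R)
  intro hb
  have h1 := inv.m1 x u
  rw [hb, zero_mul] at h1
  exact h (le_antisymm h1 (inv.m0 x u))

/-- small potential gives large live mass -/
lemma Inv.live_mass (s : Setup G T M H V0 R I0 Y X0 hm cap a0 dm) {Hp Pl : Finset W} {ψ : W → U}
    {m y : W × Bool → U → ℝ} (inv : Inv G T M V0 R Y hm Hp Pl ψ m y) {Q : Finset W}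
    {x : W × Bool} (hpot : pot G T Y X0 m y Q x < 1) :
    1 / 2 ≤ ∑ u, lv Y (y x) (m x) u := by
  have hY := s.Y_pos
  have h1 : 16 * (∑ u, m x u - 1) ^ 2 < 1 := by
    unfold pot at hpot
    have := sq_nonneg (max 0 (xp G T Y m y Q x - X0))
    linarith
  have h2 : (max 0 (xp G T Y m y Q x - X0)) ^ 2 < 1 := by
    unfold pot at hpot
    have := sq_nonneg (∑ u, m x u - 1)
    linarith
  have h3 : 3 / 4 < ∑ u, m x u := by
    by_contra hcon
    push Not at hcon
    nlinarith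
  have h4 : xp G T Y m y Q x < X0 + 1 := by
    by_contra hcon
    push Not at hcon
    have h5 : 1 ≤ max 0 (xp G T Y m y Q x - X0) := le_max_of_le_right (by linarith)
    nlinarith
  have h5 : 0 ≤ fut G T Y m y Q x := by
    unfold fut
    exact Finset.sum_nonneg (fun j _ => en_nonneg (lv_nonneg (inv.m0 x))
      (lv_nonneg (inv.m0 (j, false))))
  have h6 : ∑ u, m x u * y x u < X0 + 1 := by
    unfold xp at h4; linarith
  have h7 : Y * ∑ u, (m x u - lv Y (y x) (m x) u) ≤ ∑ u, m x u * y x u := by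
    rw [Finset.mul_sum]
    apply Finset.sum_le_sum; intro u _
    by_cases hc : y x u ≤ Y
    · rw [lv_of hc]
      have := mul_nonneg (inv.m0 x u) (inv.y0 x u)
      linarith
    · rw [lv_not hc]
      push Not at hc
      have := mul_le_mul_of_nonneg_left hc.le (inv.m0 x u)
      linarith
  rw [Finset.sum_sub_distrib] at h7
  have h8 := s.b9
  have h9 : Y * (∑ u, m x u - ∑ u, lv Y (y x) (m x) u) < Y * (1 / 4) := by linarith
  have h10 := lt_of_mul_lt_mul_left h9 hY.le
  linarith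

/-- averaging -/
lemma exists_avg {p F : U → ℝ} {K : ℝ} (hp0 : ∀ i, 0 ≤ p i) (hp1 : ∑ i, p i = 1)
    (h : ∑ i, p i * F i ≤ K) : ∃ i, p i ≠ 0 ∧ F i ≤ K := by
  by_contra hcon
  push Not at hcon
  obtain ⟨i0, hi0⟩ : ∃ i, p i ≠ 0 := by
    by_contra hc
    push Not at hc
    simp [hc] at hp1
  have h1 : ∑ i, p i * K < ∑ i, p i * F i := by
    apply Finset.sum_lt_sum
    · intro i _
      by_cases hi : p i = 0
      · rw [hi]; simp
      · exact mul_le_mul_of_nonneg_left (hcon i hi).le (hp0 i)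
    · refine ⟨i0, Finset.mem_univ _, ?_⟩
      exact mul_lt_mul_of_pos_left (hcon i0 hi0) (lt_of_le_of_ne (hp0 i0) (Ne.symm hi0))
  rw [← Finset.sum_mul, hp1, one_mul] at h1
  linarith

end

end Pool.Agent.H37.Mart
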