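import Pool.Agent.H37.Mart.Energy
import Pool.Agent.H37.HardCore

set_option autoImplicit false
set_option linter.unusedSectionVars false

/-!
State of the placement process and the one-step estimate of the potential.
-/

namespace Pool.Agent.H37.Mart

open Finset
open Pool.Agent.H37.Hard (nb mem_nb)

variable {W U : Type*} [Fintype W] [Fintype U] [DecidableEq W] [DecidableEq U]

open scoped Classical in
/-- live part of a weight -/
noncomputable def lv (Y : ℝ) (y m : U → ℝ) (u : U) : ℝ := if y u ≤ Y then m u else 0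

open scoped Classical in
/-- updated weights -/
noncomputable def nm (G : SimpleGraph W) (T : SimpleGraph U) (Y : ℝ) (p : U → ℝ) (z : W)
    (m y : W × Bool → U → ℝ) (i : U) (x : W × Bool) (u : U) : ℝ :=
  if G.Adj x.1 z ∧ y x u ≤ Y then m x u * fac T p True i u else m x u

open scoped Classical in
/-- updated hazard counters -/
noncomputable def ny (G : SimpleGraph W) (T : SimpleGraph U) (Y η : ℝ) (p : U → ℝ) (z : W)
    (y : W × Bool → U → ℝ) (x : W × Bool) (u : U) : ℝ :=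
  if G.Adj x.1 z ∧ y x u ≤ Y then y x u + η * haz T p u else y x u

/-- energy of the future placements seen by the holder `x` -/
noncomputable def fut (G : SimpleGraph W) (T : SimpleGraph U) (Y : ℝ)
    (m y : W × Bool → U → ℝ) (Q : Finset W) (x : W × Bool) : ℝ :=
  ∑ j ∈ nb G x.1 ∩ Q, en T (lv Y (y x) (m x)) (lv Y (y (j, false)) (m (j, false)))

/-- exposure -/
noncomputable def xp (G : SimpleGraph W) (T : SimpleGraph U) (Y : ℝ)
    (m y : W × Bool → U → ℝ) (Q : Finset W) (x : W × Bool) : ℝ :=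
  ∑ u, m x u * y x u + 4 * fut G T Y m y Q x

/-- potential of one holder -/
noncomputable def pot (G : SimpleGraph W) (T : SimpleGraph U) (Y X0 : ℝ)
    (m y : W × Bool → U → ℝ) (Q : Finset W) (x : W × Bool) : ℝ :=
  16 * (∑ u, m x u - 1) ^ 2 + (max 0 (xp G T Y m y Q x - X0)) ^ 2

variable {G : SimpleGraph W} {T : SimpleGraph U} {Y : ℝ}

lemma lv_nonneg {y m : U → ℝ} (hm : ∀ u, 0 ≤ m u) (u : U) : 0 ≤ lv Y y m u := by
  unfold lv; split_ifs
  · exact hm u
  · exact le_rfl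

lemma lv_le {y m : U → ℝ} (hm : ∀ u, 0 ≤ m u) (u : U) : lv Y y m u ≤ m u := by
  unfold lv; split_ifs
  · exact le_rfl
  · exact hm u

lemma lv_ne {y m : U → ℝ} {u : U} (h : lv Y y m u ≠ 0) : y u ≤ Y ∧ m u ≠ 0 := by
  unfold lv at h
  split_ifs at h with h1
  · exact ⟨h1, h⟩
  · exact absurd rfl h

lemma lv_of {y m : U → ℝ} {u : U} (h : y u ≤ Y) : lv Y y m u = m u := by
  unfold lv; rw [if_pos h]

lemma lv_not {y m : U → ℝ} {u : U} (h : ¬ y u ≤ Y) : lv Y y m u = 0 := by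
  unfold lv; rw [if_neg h]

lemma ok_lv {p : U → ℝ} {y m : U → ℝ} (h : ∀ u, m u = 0 ∨ haz T p u ≤ 1 / 2) :
    Ok T p (lv Y y m) := by
  intro u
  rcases h u with h1 | h1
  · left
    by_cases h2 : y u ≤ Y
    · rw [lv_of h2]; exact h1
    · exact lv_not h2
  · right; exact h1

section step

variable {p : U → ℝ} {z : W} {η : ℝ} {m y : W × Bool → U → ℝ}

lemma nm_eq (i : U) (x : W × Bool) (u : U) :
    nm G T Y p z m y i x u = m x u +
      (up T p (G.Adj x.1 z) (lv Y (y x) (m x)) i u - lv Y (y x) (m x) u) := by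
  unfold nm up
  by_cases h2 : y x u ≤ Y
  · rw [lv_of h2]
    by_cases h1 : G.Adj x.1 z
    · rw [if_pos ⟨h1, h2⟩, fac_of T p trivial, fac_of T p h1]; ring
    · rw [if_neg (fun h => h1 h.1), fac_not T p h1]; ring
  · rw [lv_not h2, if_neg (fun h => h2 h.2)]; ring

lemma nm_ny_eq (i : U) (x : W × Bool) (u : U) :
    nm G T Y p z m y i x u * ny G T Y η p z y x u = m x u * y x u +
      (up T p (G.Adj x.1 z) (lv Y (y x) (m x)) i u *
        (y x u + pr (G.Adj x.1 z) * η * haz T p u) - lv Y (y x) (m x) u * y x u) := by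
  unfold nm ny up
  by_cases h2 : y x u ≤ Y
  · rw [lv_of h2]
    by_cases h1 : G.Adj x.1 z
    · rw [if_pos ⟨h1, h2⟩, if_pos ⟨h1, h2⟩, fac_of T p trivial, fac_of T p h1, pr_of h1]; ring
    · rw [if_neg (fun h => h1 h.1), if_neg (fun h => h1 h.1), fac_not T p h1, pr_not h1]; ring
  · rw [lv_not h2, if_neg (fun h => h2 h.2), if_neg (fun h => h2 h.2)]; ring

lemma le_ny (hp0 : ∀ i, 0 ≤ p i) (hη : 0 ≤ η) (x : W × Bool) (u : U) :
    y x u ≤ ny G T Y η p z y x u := by
  unfold ny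
  split_ifs
  · have := mul_nonneg hη (haz_nonneg (T := T) hp0 u)
    linarith
  · exact le_rfl

lemma lv_nm_le (hp0 : ∀ i, 0 ≤ p i) (hη : 0 ≤ η) (hm : ∀ x u, 0 ≤ m x u)
    (hok : ∀ x u, m x u = 0 ∨ haz T p u ≤ 1 / 2) (i : U) (x : W × Bool) (u : U) :
    lv Y (ny G T Y η p z y x) (nm G T Y p z m y i x) u ≤
      up T p (G.Adj x.1 z) (lv Y (y x) (m x)) i u := by
  have hnn := up_nonneg (T := T) (p := p) (lv_nonneg (Y := Y) (y := y x) (hm x))
    (ok_lv (hok x)) (G.Adj x.1 z) i u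
  by_cases h3 : ny G T Y η p z y x u ≤ Y
  · rw [lv_of h3, nm_eq]
    have h2 : y x u ≤ Y := (le_ny hp0 hη x u).trans h3
    rw [lv_of h2]; linarith
  · rw [lv_not h3]; exact hnn

lemma nm_nonneg (hm : ∀ x u, 0 ≤ m x u)
    (hok : ∀ x u, m x u = 0 ∨ haz T p u ≤ 1 / 2) (i : U) (x : W × Bool) (u : U) :
    0 ≤ nm G T Y p z m y i x u := by
  unfold nm
  split_ifs
  · rcases hok x u with h | h
    · rw [h, zero_mul]
    · exact mul_nonneg (hm x u) (fac_nonneg h True i)
  · exact hm x u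

lemma sum_nm (i : U) (x : W × Bool) :
    ∑ u, nm G T Y p z m y i x u - 1 = (∑ u, m x u - 1) +
      ∑ u, (up T p (G.Adj x.1 z) (lv Y (y x) (m x)) i u - lv Y (y x) (m x) u) := by
  rw [Finset.sum_congr rfl (fun u _ => nm_eq (G := G) (T := T) (Y := Y) (p := p) (z := z)
    (m := m) (y := y) i x u), Finset.sum_add_distrib]
  ring

/-- one-step estimate for one holder -/
lemma pot_step (hT : ∀ u a b, T.Adj u a → T.Adj u b → ¬ T.Adj a b) (hY : 0 ≤ Y)
    (hp0 : ∀ i, 0 ≤ p i) (hp1 : ∑ i, p i = 1) (hη0 : 0 ≤ η) (hη1 : η ≤ 1)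
    (hm : ∀ x u, 0 ≤ m x u) (hy : ∀ x u, 0 ≤ y x u)
    (hok : ∀ x u, m x u = 0 ∨ haz T p u ≤ 1 / 2) {α cap dm X0 : ℝ} (hα : 0 ≤ α)
    (hA : ∀ x, ∀ i, p i ≠ 0 → ∑ u, m x u * ad T i u ≤ α)
    (hAB : ∀ j u, ∑ v, m (j, false) v * ad T u v ≤ α)
    (hBA : ∀ x j v, m (j, false) v ≠ 0 → ∑ u, m x u * ad T v u ≤ α)
    (Q Q' : Finset W) (x : W × Bool) {drop : ℝ}
    (hdrop0 : 0 ≤ drop) (hdrop : drop ≤ pr (G.Adj x.1 z) * (cap * α))
    (hfut : fut G T Y m y Q x = fut G T Y m y Q' x + drop)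
    (hdr : pr (G.Adj x.1 z) * (η * ∑ u, lv Y (y x) (m x) u * haz T p u) ≤ 4 * drop)
    (hdm : ((nb G x.1 ∩ Q').card : ℝ) ≤ dm) :
    ∑ i, p i * pot G T Y X0 (nm G T Y p z m y i) (ny G T Y η p z y) Q' x ≤
      pot G T Y X0 m y Q x + (16 * (pr (G.Adj x.1 z) * (6 * α)) ^ 2 +
        (pr (G.Adj x.1 z) * (6 * α * (1 + Y) + 24 * α ^ 2 * dm + 4 * cap * α) +
          24 * α ^ 2 * (((nb G x.1 ∩ Q').filter (fun j => j ∈ nb G z)).card : ℝ)) ^ 2) := by
  set c := G.Adj x.1 z with hc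
  set a := lv Y (y x) (m x) with ha
  set b : W → U → ℝ := fun j => lv Y (y (j, false)) (m (j, false)) with hb
  have ha0 : ∀ u, 0 ≤ a u := lv_nonneg (hm x)
  have hb0 : ∀ j u, 0 ≤ b j u := fun j => lv_nonneg (hm (j, false))
  have hoka : Ok T p a := ok_lv (hok x)
  have hokb : ∀ j, Ok T p (b j) := fun j => ok_lv (hok (j, false))
  have hAa : ∀ i, p i ≠ 0 → ∑ u, a u * ad T i u ≤ α := by
    intro i hi
    refine le_trans ?_ (hA x i hi)
    exact Finset.sum_le_sum (fun u _ => mul_le_mul_of_nonneg_right (lv_le (hm x) u)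
      (ad_nonneg T i u))
  have hAb : ∀ j, ∀ u, ∑ v, b j v * ad T u v ≤ α := by
    intro j u
    refine le_trans ?_ (hAB j u)
    exact Finset.sum_le_sum (fun v _ => mul_le_mul_of_nonneg_right (lv_le (hm (j, false)) v)
      (ad_nonneg T u v))
  have hBa : ∀ j, ∀ v, b j v ≠ 0 → ∑ u, a u * ad T v u ≤ α := by
    intro j v hv
    refine le_trans ?_ (hBA x j v (lv_ne hv).2)
    exact Finset.sum_le_sum (fun u _ => mul_le_mul_of_nonneg_right (lv_le (hm x) u)
      (ad_nonneg T v u))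
  have hprc := pr_nonneg c
  -- mass part
  have h1 : ∑ i, p i * (16 * (∑ u, nm G T Y p z m y i x u - 1) ^ 2) ≤
      16 * (∑ u, m x u - 1) ^ 2 + 16 * (pr c * (6 * α)) ^ 2 := by
    have h2 := mass_step (T := T) ha0 hp0 hp1 hoka c hAa (∑ u, m x u - 1)
    have h3 : ∑ i, p i * (16 * (∑ u, nm G T Y p z m y i x u - 1) ^ 2) =
        16 * ∑ i, p i * ((∑ u, m x u - 1) + ∑ u, (up T p c a i u - a u)) ^ 2 := by
      rw [Finset.mul_sum]
      apply Finset.sum_congr rfl; intro i _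
      rw [sum_nm]; ring
    rw [h3]
    linarith
  -- exposure part
  have h4 : ∀ i, xp G T Y (nm G T Y p z m y i) (ny G T Y η p z y) Q' x - X0 ≤
      (xp G T Y m y Q x - X0) + (∑ u, (up T p c a i u * (y x u + pr c * η * haz T p u) -
        a u * y x u) + 4 * ∑ j ∈ nb G x.1 ∩ Q', (en T (up T p c a i)
          (up T p (G.Adj j z) (b j) i) - en T a (b j)) - 4 * drop) := by
    intro i
    have h5 : ∑ u, nm G T Y p z m y i x u * ny G T Y η p z y x u =
        ∑ u, m x u * y x u + ∑ u, (up T p c a i u * (y x u + pr c * η * haz T p u) -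
        a u * y x u) := by
      rw [← Finset.sum_add_distrib]
      exact Finset.sum_congr rfl (fun u _ => nm_ny_eq i x u)
    have h6 : fut G T Y (nm G T Y p z m y i) (ny G T Y η p z y) Q' x ≤
        ∑ j ∈ nb G x.1 ∩ Q', en T (up T p c a i) (up T p (G.Adj j z) (b j) i) := by
      unfold fut
      apply Finset.sum_le_sum; intro j _
      exact en_mono (lv_nonneg (nm_nonneg hm hok i x)) (lv_nonneg (nm_nonneg hm hok i (j, false)))
        (lv_nm_le hp0 hη0 hm hok i x) (lv_nm_le hp0 hη0 hm hok i (j, false))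
    have h7 : fut G T Y m y Q' x = ∑ j ∈ nb G x.1 ∩ Q', en T a (b j) := rfl
    have h7' : ∑ j ∈ nb G x.1 ∩ Q', (en T (up T p c a i) (up T p (G.Adj j z) (b j) i) -
        en T a (b j)) = ∑ j ∈ nb G x.1 ∩ Q', en T (up T p c a i) (up T p (G.Adj j z) (b j) i) -
        ∑ j ∈ nb G x.1 ∩ Q', en T a (b j) := Finset.sum_sub_distrib _ _
    unfold xp
    rw [h5, hfut, h7, h7']
    linarith
  have h8 := expo_step (T := T) hT (nb G x.1 ∩ Q') (a := a) (y := y x) (b := b) (c := c)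
    (cc := fun j => G.Adj j z) (p := p) ha0 (fun j _ => hb0 j) hp0 hp1 hoka (fun j _ => hokb j)
    (A := α) (Yc := Y) (drop := drop) (η := η) hα hY hdrop0 hη0 hη1 (fun u _ => hy x u)
    (fun u hu => (lv_ne hu).1) hAa (fun j _ i _ => hAb j i) (fun j _ u _ => hAb j u)
    (fun j _ v hv => hBa j v hv) hdr (xp G T Y m y Q x - X0)
  have h9 : ∑ i, p i * (max 0 (xp G T Y (nm G T Y p z m y i) (ny G T Y η p z y) Q' x - X0)) ^ 2 ≤
      (max 0 (xp G T Y m y Q x - X0)) ^ 2 +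
        (pr c * (6 * α * (1 + Y) + 24 * α ^ 2 * dm + 4 * cap * α) +
          24 * α ^ 2 * (((nb G x.1 ∩ Q').filter (fun j => j ∈ nb G z)).card : ℝ)) ^ 2 := by
    refine le_trans (Finset.sum_le_sum (fun i _ => ?_)) (h8.trans ?_)
    · apply mul_le_mul_of_nonneg_left _ (hp0 i)
      apply pow_le_pow_left₀ (le_max_left _ _)
      exact max_le_max le_rfl (h4 i)
    · have h10 : ∑ j ∈ nb G x.1 ∩ Q', (pr c + pr (G.Adj j z)) * (6 * α ^ 2) =
          (pr c * ((nb G x.1 ∩ Q').card : ℝ) +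
            (((nb G x.1 ∩ Q').filter (fun j => j ∈ nb G z)).card : ℝ)) * (6 * α ^ 2) := by
        rw [← Finset.sum_mul, Finset.sum_add_distrib, Finset.sum_const, nsmul_eq_mul,
          mul_comm (pr c)]
        congr 2
        rw [Finset.card_filter]
        push_cast
        apply Finset.sum_congr rfl; intro j _
        by_cases hj : G.Adj j z
        · rw [pr_of hj, if_pos (mem_nb.2 hj.symm)]
        · rw [pr_not hj, if_neg (fun h => hj (mem_nb.1 h).symm)]
      rw [h10]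
      have h11 : pr c * (6 * α * (1 + Y)) +
          4 * ((pr c * ((nb G x.1 ∩ Q').card : ℝ) +
            (((nb G x.1 ∩ Q').filter (fun j => j ∈ nb G z)).card : ℝ)) * (6 * α ^ 2)) + 4 * drop ≤
          pr c * (6 * α * (1 + Y) + 24 * α ^ 2 * dm + 4 * cap * α) +
          24 * α ^ 2 * (((nb G x.1 ∩ Q').filter (fun j => j ∈ nb G z)).card : ℝ) := by
        have k1 : pr c * ((nb G x.1 ∩ Q').card : ℝ) * (24 * α ^ 2) ≤ pr c * dm * (24 * α ^ 2) := by
          apply mul_le_mul_of_nonneg_right _ (by positivity)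
          exact mul_le_mul_of_nonneg_left hdm hprc
        nlinarith
      have h12 : 0 ≤ pr c * (6 * α * (1 + Y)) +
          4 * ((pr c * ((nb G x.1 ∩ Q').card : ℝ) +
            (((nb G x.1 ∩ Q').filter (fun j => j ∈ nb G z)).card : ℝ)) * (6 * α ^ 2)) +
              4 * drop := by
        positivity
      have h13 := pow_le_pow_left₀ h12 h11 2
      linarith
  unfold pot
  have h14 : ∑ i, p i * (16 * (∑ u, nm G T Y p z m y i x u - 1) ^ 2 +
      (max 0 (xp G T Y (nm G T Y p z m y i) (ny G T Y η p z y) Q' x - X0)) ^ 2) =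
      ∑ i, p i * (16 * (∑ u, nm G T Y p z m y i x u - 1) ^ 2) +
      ∑ i, p i * (max 0 (xp G T Y (nm G T Y p z m y i) (ny G T Y η p z y) Q' x - X0)) ^ 2 := by
    rw [← Finset.sum_add_distrib]
    exact Finset.sum_congr rfl (fun i _ => by ring)
  rw [h14]
  linarith

end step

end Pool.Agent.H37.Mart
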